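import Pool.Agent.Helper37.PC.QAP
import Pool.Agent.Helper57.PC.Final

/-! Choice functions correlated with quadratic almost periodic functions: the main estimate
(the argument of Helper57.PC.Key and AP, with a quadratic part). -/

namespace Pool.Agent.Helper37.PC

open Finset Filter Topology
open Pool.Agent.Helper25.RC (repF rep below mem_below below_subset_range repF_below_le)
open Pool.Agent.Helper57.PC

lemma qc_nat_add (a b : ℕ) (j : Fr × Fr) :
    qc (a + b) j = qc a j * qc b j * ch (a * b) (2 • j.1) := by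
  unfold qc
  have e : ch ((a + b) * (a + b)) j.1 = ch (a * a) j.1 * ch (b * b) j.1 * ch (a * b) (2 • j.1) := by
    rw [← ch_mul_comm, ← ch_nat_add, ← ch_nat_add]
    congr 1
    ring
  rw [e, ch_nat_add a b]
  ring

/-- the irrational part is negligible -/
lemma quad_small (J : Finset (Fr × Fr)) (d : Fr × Fr → ℂ)
    (hJ : ∀ j ∈ J, ∀ q : ℕ, 0 < q → q • j.1 ≠ 0) {K ρ : ℝ} (hK : 0 < K) (hρ : 0 < ρ) :
    ∀ᶠ x : ℕ in atTop, ∀ S ⊆ range x, En S x ≤ K * x → ∀ η : Fr,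
      ‖∑ p ∈ S ×ˢ S, ch p.1 η * qt J d (p.1 + p.2)‖ ≤ ρ * x := by
  set M : ℝ := ∑ j ∈ J, ‖d j‖ with hM
  have hM0 : 0 ≤ M := Finset.sum_nonneg fun _ _ => norm_nonneg _
  have h1 : ∀ᶠ x : ℕ in atTop, ∀ j ∈ J, ∀ S ⊆ range x, En S x ≤ K * x →
      ∀ φ φ' : ℕ → ℂ, (∀ n, ‖φ n‖ ≤ 1) → (∀ n, ‖φ' n‖ ≤ 1) →
      ‖∑ p ∈ S ×ˢ S, φ p.1 * φ' p.2 * ch (p.1 * p.2) (2 • j.1)‖ ≤ ρ / (M + 1) * x := by
    rw [Finset.eventually_all]
    intro j hj
    refine lemmaQ (2 • j.1) (fun q hq h0 => ?_) hK (by positivity)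
    rw [← mul_smul] at h0
    exact hJ j hj (q * 2) (by omega) h0
  filter_upwards [h1] with x hx S hS hE η
  have e : ∑ p ∈ S ×ˢ S, ch p.1 η * qt J d (p.1 + p.2) = ∑ j ∈ J, d j *
      ∑ p ∈ S ×ˢ S, (ch p.1 η * qc p.1 j) * qc p.2 j * ch (p.1 * p.2) (2 • j.1) := by
    unfold qt
    simp_rw [Finset.mul_sum]
    rw [Finset.sum_comm]
    refine Finset.sum_congr rfl fun j _ => Finset.sum_congr rfl fun p _ => ?_
    rw [qc_nat_add]
    ring
  rw [e]
  have hx0 : (0 : ℝ) ≤ x := Nat.cast_nonneg _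
  refine (norm_sum_le _ _).trans ?_
  have h2 : ∀ j ∈ J, ‖d j * ∑ p ∈ S ×ˢ S, (ch p.1 η * qc p.1 j) * qc p.2 j *
      ch (p.1 * p.2) (2 • j.1)‖ ≤ ‖d j‖ * (ρ / (M + 1) * x) := by
    intro j hj
    rw [norm_mul]
    refine mul_le_mul_of_nonneg_left ?_ (norm_nonneg _)
    refine hx j hj S hS hE (fun a => ch a η * qc a j) (fun b => qc b j) (fun n => ?_)
      (fun n => (norm_qc n j).le)
    rw [norm_mul, norm_ch, norm_qc, one_mul]
  refine (Finset.sum_le_sum h2).trans ?_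
  rw [← Finset.sum_mul, ← hM]
  have h3 : M * (ρ / (M + 1)) ≤ ρ := by
    rw [← mul_div_assoc, div_le_iff₀ (by positivity)]
    nlinarith
  calc M * (ρ / (M + 1) * x) = M * (ρ / (M + 1)) * x := by ring
    _ ≤ ρ * x := mul_le_mul_of_nonneg_right h3 hx0

/-- The main estimate, with a quadratic part. -/
lemma key' (S : Finset ℕ) {x : ℕ} (hx : 0 < x) (hS : S ⊆ range x) {K δ η ε : ℝ} (hK0 : 0 < K)
    (hδ : 0 < δ) (hE : En S x ≤ K * x) {N R : ℕ} (hR : 0 < R)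
    (hN : N = R ^ 4) (ψ : Fin N → Fr) (g : Fin N → ℕ → ℂ) (ω : Fin N → ℂ)
    (hω : ∀ i, ‖ω i‖ ≤ 1)
    (hG1 : δ * x * N ^ 2 ≤ ∑ p ∈ S ×ˢ S,
        ‖∑ i, ω i * (ch p.1 (ψ i) * (starRingEnd ℂ) (g i (p.1 + p.2)))‖ ^ 2)
    (Θ : Fin N → Fin N → Finset Fr) (c : Fin N → Fin N → Fr → ℂ)
    (J : Fin N → Fin N → Finset (Fr × Fr)) (d : Fin N → Fin N → Fr × Fr → ℂ) (O : Finset Fr)
    (hc : ∀ i k, ∑ θ ∈ Θ i k, ‖c i k θ‖ ^ 2 ≤ 4)
    (herr : ∀ i k, ∑ n ∈ range (2 * x),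
      ‖(starRingEnd ℂ) (g i n) * g k n - (tp (Θ i k) (c i k) n + qt (J i k) (d i k) n)‖ ^ 2 ≤
        ε * x)
    (hquad : ∀ i k, ‖∑ p ∈ S ×ˢ S, ch p.1 (ψ i - ψ k) *
      qt (J i k) (d i k) (p.1 + p.2)‖ ≤ δ / 8 * x)
    (hε : K * ε ≤ (δ / 4) ^ 2)
    (hold : ∀ θ ∈ O, ∀ i, ∑ k, ‖hat S (θ + (ψ i - ψ k))‖ ^ 4 ≤ 53 * x * En S x)
    (hnew1 : ∀ i k, ∑ θ ∈ Θ i k, ‖hat S (θ + (ψ i - ψ k))‖ ^ 4 ≤ 53 * x * En S x)
    (hnew2 : ∀ i k, ∑ θ ∈ Θ i k with θ ∉ O, ‖hat S θ‖ ^ 4 ≤ η * x ^ 2)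
    (hη : 16 * (53 * K) * η ≤ (δ / 4) ^ 4)
    (hRO : 8 * #O * √(53 * K) ≤ δ * R) : False := by
  classical
  have hx0 : (0 : ℝ) < x := by exact_mod_cast hx
  have hR0 : (0 : ℝ) < R := by exact_mod_cast hR
  have hN0 : (0 : ℝ) < N := by rw [hN]; push_cast; positivity
  set H : ℝ := 53 * K * x ^ 2 with hH
  have hH0 : 0 < H := by positivity
  have hEH : 53 * x * En S x ≤ H := by
    rw [hH]
    nlinarith
  set y : ℝ := √(√H) with hy
  have hy0 : 0 ≤ y := Real.sqrt_nonneg _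
  have hy2 : y ^ 2 = √(53 * K) * x := by
    rw [hy, Real.sq_sqrt (Real.sqrt_nonneg _), hH, Real.sqrt_mul (by positivity),
      Real.sqrt_sq hx0.le]
  have hy4 : y ^ 4 = H := by
    rw [show (4 : ℕ) = 2 * 2 by norm_num, pow_mul, hy, Real.sq_sqrt (Real.sqrt_nonneg _),
      Real.sq_sqrt hH0.le]
  have hhat : ∀ θ, ‖hat S θ‖ ≤ y := by
    intro θ
    refine le_of_pow_le_pow_left₀ (by norm_num : (4 : ℕ) ≠ 0) hy0 ?_
    rw [hy4]
    exact (hat_le S hx hS θ).trans hEH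
  have hc2 : ∀ i k, ∀ θ ∈ Θ i k, ‖c i k θ‖ ≤ 2 := by
    intro i k θ hθ
    have h1 : ‖c i k θ‖ ^ 2 ≤ 2 ^ 2 :=
      ((Finset.single_le_sum (f := fun θ => ‖c i k θ‖ ^ 2) (fun _ _ => sq_nonneg _) hθ).trans
        (hc i k)).trans (by norm_num)
    exact le_of_pow_le_pow_left₀ (by norm_num : (2 : ℕ) ≠ 0) (by norm_num) h1
  -- the kernel sum
  set G : ℝ := ∑ p ∈ S ×ˢ S,
    ‖∑ i, ω i * (ch p.1 (ψ i) * (starRingEnd ℂ) (g i (p.1 + p.2)))‖ ^ 2 with hG
  -- the terms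
  set A : Fin N → Fin N → ℂ := fun i k => ∑ p ∈ S ×ˢ S,
    ch p.1 (ψ i - ψ k) * ((starRingEnd ℂ) (g i (p.1 + p.2)) * g k (p.1 + p.2)) with hA
  have hG2 : (G : ℂ) = ∑ i, ∑ k, (ω i * (starRingEnd ℂ) (ω k)) * A i k := by
    rw [hG, Complex.ofReal_sum, Finset.sum_congr rfl fun p _ =>
      kernel_expand ψ ω g p.1 (p.1 + p.2), Finset.sum_comm]
    refine Finset.sum_congr rfl fun i _ => ?_
    rw [Finset.sum_comm]
    refine Finset.sum_congr rfl fun k _ => ?_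
    rw [hA, Finset.mul_sum]
  set W : Fin N → Fin N → ℝ := fun i k =>
    ∑ θ ∈ O, 2 * y * ‖hat S (θ + (ψ i - ψ k))‖ with hW
  have hterm : ∀ i k, ‖A i k‖ ≤ δ / 4 * x + δ / 4 * x + δ / 8 * x + W i k := by
    intro i k
    have herr2 : ‖A i k - ∑ p ∈ S ×ˢ S, ch p.1 (ψ i - ψ k) *
        (tp (Θ i k) (c i k) (p.1 + p.2) + qt (J i k) (d i k) (p.1 + p.2))‖ ≤ δ / 4 * x := by
      refine le_of_pow_le_pow_left₀ (by norm_num : (2 : ℕ) ≠ 0) (by positivity) ?_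
      refine (err_le S hS (ψ i - ψ k) (fun n => (starRingEnd ℂ) (g i n) * g k n)
        (fun n => tp (Θ i k) (c i k) n + qt (J i k) (d i k) n)).trans ?_
      have hE0 : 0 ≤ En S x := Finset.sum_nonneg fun _ _ => sq_nonneg _
      have h0 : 0 ≤ ∑ n ∈ range (2 * x),
          ‖(starRingEnd ℂ) (g i n) * g k n -
            (tp (Θ i k) (c i k) n + qt (J i k) (d i k) n)‖ ^ 2 :=
        Finset.sum_nonneg fun _ _ => sq_nonneg _
      calc En S x * _ ≤ (K * x) * (ε * x) := mul_le_mul hE (herr i k) h0 (by positivity)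
        _ = (K * ε) * x ^ 2 := by ring
        _ ≤ (δ / 4) ^ 2 * x ^ 2 := mul_le_mul_of_nonneg_right hε (by positivity)
        _ = (δ / 4 * x) ^ 2 := by ring
    have hmain : ‖∑ p ∈ S ×ˢ S, ch p.1 (ψ i - ψ k) * tp (Θ i k) (c i k) (p.1 + p.2)‖ ≤
        δ / 4 * x + W i k := by
      rw [main_term]
      refine (norm_sum_le _ _).trans ?_
      have e1 : ∀ θ ∈ Θ i k, ‖c i k θ * hat S (θ + (ψ i - ψ k)) * hat S θ‖ =
          ‖c i k θ‖ * ‖hat S (θ + (ψ i - ψ k))‖ * ‖hat S θ‖ := fun θ _ => by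
        rw [norm_mul, norm_mul]
      rw [Finset.sum_congr rfl e1, ← Finset.sum_filter_add_sum_filter_not (Θ i k) (· ∉ O)]
      refine add_le_add ?_ ?_
      · refine le_of_pow_le_pow_left₀ (by norm_num : (4 : ℕ) ≠ 0) (by positivity) ?_
        have h1 := new_le ((Θ i k).filter (· ∉ O)) (c i k) S (ψ i - ψ k) (H := H)
          (Y := η * x ^ 2)
          ((Finset.sum_le_sum_of_subset_of_nonneg (Finset.filter_subset _ _)
            fun _ _ _ => sq_nonneg _).trans (hc i k))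
          ((Finset.sum_le_sum_of_subset_of_nonneg (Finset.filter_subset _ _)
            fun _ _ _ => by positivity).trans ((hnew1 i k).trans hEH)) (hnew2 i k)
        refine h1.trans ?_
        rw [hH]
        calc 16 * (53 * K * (x : ℝ) ^ 2) * (η * x ^ 2) =
              (16 * (53 * K) * η) * x ^ 4 := by ring
          _ ≤ (δ / 4) ^ 4 * x ^ 4 := mul_le_mul_of_nonneg_right hη (by positivity)
          _ = (δ / 4 * x) ^ 4 := by ring
      · have h2 : ∀ θ ∈ (Θ i k).filter (fun θ => ¬ θ ∉ O),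
            ‖c i k θ‖ * ‖hat S (θ + (ψ i - ψ k))‖ * ‖hat S θ‖ ≤
              2 * y * ‖hat S (θ + (ψ i - ψ k))‖ := by
          intro θ hθ
          have h3 := hc2 i k θ (Finset.mem_filter.1 hθ).1
          have h4 := hhat θ
          calc ‖c i k θ‖ * ‖hat S (θ + (ψ i - ψ k))‖ * ‖hat S θ‖ ≤
                2 * ‖hat S (θ + (ψ i - ψ k))‖ * y := by gcongr
            _ = _ := by ring
        refine (Finset.sum_le_sum h2).trans ?_
        refine Finset.sum_le_sum_of_subset_of_nonneg ?_ fun _ _ _ => by positivity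
        intro θ hθ
        exact not_not.1 (Finset.mem_filter.1 hθ).2
    have hsplit : ∑ p ∈ S ×ˢ S, ch p.1 (ψ i - ψ k) *
        (tp (Θ i k) (c i k) (p.1 + p.2) + qt (J i k) (d i k) (p.1 + p.2)) =
        ∑ p ∈ S ×ˢ S, ch p.1 (ψ i - ψ k) * tp (Θ i k) (c i k) (p.1 + p.2) +
        ∑ p ∈ S ×ˢ S, ch p.1 (ψ i - ψ k) * qt (J i k) (d i k) (p.1 + p.2) := by
      rw [← Finset.sum_add_distrib]
      exact Finset.sum_congr rfl fun p _ => mul_add _ _ _
    rw [hsplit] at herr2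
    set X := ∑ p ∈ S ×ˢ S, ch p.1 (ψ i - ψ k) * tp (Θ i k) (c i k) (p.1 + p.2) with hX
    set Y := ∑ p ∈ S ×ˢ S, ch p.1 (ψ i - ψ k) * qt (J i k) (d i k) (p.1 + p.2) with hY
    have hYle : ‖Y‖ ≤ δ / 8 * x := hquad i k
    calc ‖A i k‖ = ‖(A i k - (X + Y)) + (X + Y)‖ := by rw [sub_add_cancel]
      _ ≤ ‖A i k - (X + Y)‖ + ‖X + Y‖ := norm_add_le _ _
      _ ≤ ‖A i k - (X + Y)‖ + (‖X‖ + ‖Y‖) := by
          have := norm_add_le X Y
          linarith
      _ ≤ δ / 4 * x + ((δ / 4 * x + W i k) + δ / 8 * x) :=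
          add_le_add herr2 (add_le_add hmain hYle)
      _ = _ := by ring
  -- the old frequencies
  have hWsum : ∑ i, ∑ k, W i k ≤ δ / 4 * x * N ^ 2 := by
    have h1 : ∀ θ ∈ O, ∀ i, ∑ k, ‖hat S (θ + (ψ i - ψ k))‖ ≤ R ^ 3 * y := by
      intro θ hθ i
      refine le_of_pow_le_pow_left₀ (by norm_num : (4 : ℕ) ≠ 0) (by positivity) ?_
      have h2 := pow_sum_div_card_le_sum_pow (s := (Finset.univ : Finset (Fin N)))
        (f := fun k => ‖hat S (θ + (ψ i - ψ k))‖) (fun _ _ => norm_nonneg _) 3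
      rw [Finset.card_univ, Fintype.card_fin, div_le_iff₀ (by positivity)] at h2
      refine h2.trans ?_
      have h3 := ((hold θ hθ i).trans hEH)
      calc (∑ k, ‖hat S (θ + (ψ i - ψ k))‖ ^ 4) * (N : ℝ) ^ 3 ≤ H * (N : ℝ) ^ 3 :=
            mul_le_mul_of_nonneg_right h3 (by positivity)
        _ = (R ^ 3 * y) ^ 4 := by
            rw [mul_pow, hy4, hN]
            push_cast
            ring
    have h4 : ∑ i, ∑ k, W i k = ∑ θ ∈ O, ∑ i, 2 * y * ∑ k, ‖hat S (θ + (ψ i - ψ k))‖ := by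
      simp only [hW]
      have : ∀ i ∈ (Finset.univ : Finset (Fin N)),
          ∑ k, ∑ θ ∈ O, 2 * y * ‖hat S (θ + (ψ i - ψ k))‖ =
          ∑ θ ∈ O, 2 * y * ∑ k, ‖hat S (θ + (ψ i - ψ k))‖ := by
        intro i _
        rw [Finset.sum_comm]
        refine Finset.sum_congr rfl fun θ _ => ?_
        rw [Finset.mul_sum]
      rw [Finset.sum_congr rfl this, Finset.sum_comm]
    rw [h4]
    have h5 : ∑ θ ∈ O, ∑ i, 2 * y * ∑ k, ‖hat S (θ + (ψ i - ψ k))‖ ≤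
        ∑ _θ ∈ O, ∑ _i : Fin N, 2 * y * (R ^ 3 * y) := by
      refine Finset.sum_le_sum fun θ hθ => Finset.sum_le_sum fun i _ => ?_
      exact mul_le_mul_of_nonneg_left (h1 θ hθ i) (by positivity)
    refine h5.trans ?_
    rw [Finset.sum_const, Finset.sum_const, Finset.card_univ, Fintype.card_fin, nsmul_eq_mul,
      nsmul_eq_mul]
    have h6 : (#O : ℝ) * (N * (2 * y * (R ^ 3 * y))) =
        (8 * #O * √(53 * K)) * (N * R ^ 3 * x / 4) := by
      have : 2 * y * ((R : ℝ) ^ 3 * y) = 2 * R ^ 3 * y ^ 2 := by ring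
      rw [this, hy2]
      ring
    rw [h6]
    calc (8 * (#O : ℝ) * √(53 * K)) * (N * R ^ 3 * x / 4) ≤ (δ * R) * (N * R ^ 3 * x / 4) :=
          mul_le_mul_of_nonneg_right hRO (by positivity)
      _ = δ / 4 * x * N ^ 2 := by
          rw [hN]
          push_cast
          ring
  -- conclusion
  have h7 : G ≤ ∑ i, ∑ k, ‖A i k‖ := by
    have h8 : G ≤ ‖(G : ℂ)‖ := by
      rw [Complex.norm_real]
      exact le_abs_self _
    rw [hG2] at h8
    refine h8.trans ((norm_sum_le _ _).trans (Finset.sum_le_sum fun i _ =>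
      (norm_sum_le _ _).trans (Finset.sum_le_sum fun k _ => ?_)))
    rw [norm_mul, norm_mul, RCLike.norm_conj]
    have h12 : ‖ω i‖ * ‖ω k‖ ≤ 1 := mul_le_one₀ (hω i) (norm_nonneg _) (hω k)
    exact mul_le_of_le_one_left (norm_nonneg _) h12
  have h9 : ∑ i, ∑ k, ‖A i k‖ ≤ ∑ i, ∑ k, (δ / 4 * x + δ / 4 * x + δ / 8 * x + W i k) :=
    Finset.sum_le_sum fun i _ => Finset.sum_le_sum fun k _ => hterm i k
  have h10 : ∑ i : Fin N, ∑ k : Fin N, (δ / 4 * x + δ / 4 * x + δ / 8 * x + W i k) =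
      (δ / 4 * x + δ / 4 * x + δ / 8 * x) * N ^ 2 + ∑ i, ∑ k, W i k := by
    simp_rw [Finset.sum_add_distrib, Finset.sum_const, Finset.card_univ, Fintype.card_fin,
      nsmul_eq_mul]
    ring
  rw [h10] at h9
  have h11 : 0 < δ * x * N ^ 2 := by positivity
  nlinarith

/-- The main lemma: along a filter of scales at which the mean of the squares of the number of
representations stays bounded, only finitely many characters of the first summand are correlated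
with quadratic almost periodic functions of the sum. -/
lemma core' (A : Set ℕ) (F : Filter ℕ) [NeBot F] (hF : F ≤ atTop) {K δ : ℝ} (hK : 0 < K)
    (hδ : 0 < δ) (hE : ∀ᶠ x in F, En (below A x) x ≤ K * x) (Ψ : Set Fr) (hΨ : Ψ.Infinite)
    (h : Fr → ℕ → ℂ)
    (hap : ∀ ψ ∈ Ψ, ∀ ψ' ∈ Ψ, BQ (fun n => (starRingEnd ℂ) (h ψ n) * h ψ' n))
    (hb : ∀ ψ ∈ Ψ, ∀ n, ‖h ψ n‖ ≤ 1)
    (v : ℕ → ℕ → ℕ → ℂ) (hv : ∀ x a b, ‖v x a b‖ ≤ 1)
    (hcor : ∀ ψ ∈ Ψ, ∀ᶠ x : ℕ in F, δ * x ≤ ‖∑ p ∈ below A x ×ˢ below A x,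
      v x p.1 p.2 * (ch p.1 ψ * (starRingEnd ℂ) (h ψ (p.1 + p.2)))‖) : False := by
  classical
  set U : Ultrafilter ℕ := Ultrafilter.of F with hU
  have hUF : (U : Filter ℕ) ≤ F := Ultrafilter.of_le F
  have hUt : (U : Filter ℕ) ≤ atTop := hUF.trans hF
  set u : Fr → ℕ → ℝ := fun θ x => ‖hat (below A x) θ‖ ^ 4 / (x : ℝ) ^ 2 with hu
  -- sums of u
  have hsum1 : ∀ Θ : Finset Fr, ∀ᶠ x : ℕ in (U : Filter ℕ), ∑ θ ∈ Θ, u θ x ≤ 53 * K := by
    intro Θ
    filter_upwards [hUt (sum_hat_le Θ), hUF hE, hUt (eventually_gt_atTop 0)] with x hx hxE hx0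
    have hx0' : (0 : ℝ) < x := by exact_mod_cast hx0
    have h1 := hx (below A x) (below_subset_range A x)
    rw [hu, ← Finset.sum_div, div_le_iff₀ (by positivity)]
    refine h1.trans ?_
    have : 53 * x * En (below A x) x ≤ 53 * x * (K * x) :=
      mul_le_mul_of_nonneg_left hxE (by positivity)
    linarith
  have hL : ∀ θ, ∃ l : ℝ, 0 ≤ l ∧ Tendsto (u θ) (U : Filter ℕ) (𝓝 l) := by
    intro θ
    have h1 : ∀ᶠ x : ℕ in (U : Filter ℕ), u θ x ∈ Set.Icc (0 : ℝ) (53 * K) := by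
      filter_upwards [hsum1 {θ}] with x hx
      rw [Finset.sum_singleton] at hx
      exact ⟨by simp only [hu]; positivity, hx⟩
    obtain ⟨l, hl, hle⟩ := (isCompact_Icc (a := (0 : ℝ)) (b := 53 * K)).ultrafilter_le_nhds
      (U.map (u θ)) (by
        rw [Filter.le_principal_iff]
        exact h1)
    exact ⟨l, hl.1, hle⟩
  choose L hL0 hLt using hL
  have hLs : ∀ Θ : Finset Fr, ∑ θ ∈ Θ, L θ ≤ 53 * K := by
    intro Θ
    exact le_of_tendsto (tendsto_finsetSum Θ fun θ _ => hLt θ) (hsum1 Θ)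
  have hsummable : Summable L := summable_of_sum_le hL0 hLs
  -- constants
  have hK2 : 0 < √(2 * K) := Real.sqrt_pos.2 (by positivity)
  set D : ℝ := δ ^ 2 / √(2 * K) with hD
  have hD0 : 0 < D := by positivity
  set η : ℝ := (D / 4) ^ 4 / (16 * (53 * K)) with hη
  have hη0 : 0 < η := by positivity
  obtain ⟨O, hO⟩ := summable_iff_vanishing_norm.1 hsummable η hη0
  obtain ⟨R, hR⟩ := exists_nat_ge (8 * #O * √(53 * K) / D + 1)
  have hR0 : 0 < R := by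
    have h1 : (0 : ℝ) ≤ 8 * #O * √(53 * K) / D := by positivity
    have : (0 : ℝ) < R := by linarith
    exact_mod_cast this
  have hRO : 8 * #O * √(53 * K) ≤ D * R := by
    have h1 : 8 * #O * √(53 * K) / D ≤ R := by linarith
    rw [div_le_iff₀ hD0] at h1
    linarith
  obtain ⟨N, hN⟩ : ∃ N, N = R ^ 4 := ⟨_, rfl⟩
  let ψ : Fin N → Fr := fun i => (Set.Infinite.natEmbedding Ψ hΨ i : Fr)
  have hψ : ∀ i, ψ i ∈ Ψ := fun i => (Set.Infinite.natEmbedding Ψ hΨ i).2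
  have hψi : Function.Injective ψ := by
    intro i k hik
    exact Fin.ext ((Set.Infinite.natEmbedding Ψ hΨ).injective (Subtype.ext hik))
  set ε : ℝ := (D / 4) ^ 2 / K with hε
  have hε0 : 0 < ε := by positivity
  have hε1 : 0 < min 1 (ε / 2) := lt_min one_pos (by positivity)
  choose Θ c J d hJ hΘ using fun i k => (hap (ψ i) (hψ i) (ψ k) (hψ k)).split hε1
  have hc : ∀ i k, ∑ θ ∈ Θ i k, ‖c i k θ‖ ^ 2 ≤ 4 := by
    intro i k
    refine coef_le_of_split (fun n => ?_) (min_le_left _ _) (hJ i k) (hΘ i k)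
    rw [norm_mul, RCLike.norm_conj]
    exact mul_le_one₀ (hb _ (hψ i) n) (norm_nonneg _) (hb _ (hψ k) n)
  -- eventual facts
  have ht2 : Tendsto (fun x : ℕ => 2 * x) atTop atTop :=
    tendsto_atTop_mono (fun x => show x ≤ 2 * x by omega) tendsto_id
  have E1 : ∀ᶠ x : ℕ in (U : Filter ℕ), ∀ i k, ∑ n ∈ range (2 * x),
      ‖(starRingEnd ℂ) (h (ψ i) n) * h (ψ k) n -
        (tp (Θ i k) (c i k) n + qt (J i k) (d i k) n)‖ ^ 2 ≤ ε * x := by
    rw [eventually_all]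
    intro i
    rw [eventually_all]
    intro k
    filter_upwards [hUt (ht2.eventually (hΘ i k))] with x hx
    refine hx.trans ?_
    push_cast
    have hx0 : (0 : ℝ) ≤ x := Nat.cast_nonneg _
    have : min 1 (ε / 2) * (2 * (x : ℝ)) ≤ ε / 2 * (2 * x) :=
      mul_le_mul_of_nonneg_right (min_le_right _ _) (by positivity)
    linarith
  have E2 : ∀ᶠ x : ℕ in (U : Filter ℕ), ∀ θ ∈ O, ∀ i,
      ∑ k, ‖hat (below A x) (θ + (ψ i - ψ k))‖ ^ 4 ≤ 53 * x * En (below A x) x := by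
    rw [Finset.eventually_all]
    intro θ _
    rw [eventually_all]
    intro i
    filter_upwards [hUt (sum_hat_le (Finset.univ.image fun k => θ + (ψ i - ψ k)))] with x hx
    have h1 := hx (below A x) (below_subset_range A x)
    rw [Finset.sum_image] at h1
    · exact h1
    · intro k _ k' _ hkk
      have h2 : ψ k = ψ k' := by
        have h3 := add_left_cancel hkk
        exact sub_right_injective h3
      exact hψi h2
  have E3 : ∀ᶠ x : ℕ in (U : Filter ℕ), ∀ i k,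
      ∑ θ ∈ Θ i k, ‖hat (below A x) (θ + (ψ i - ψ k))‖ ^ 4 ≤ 53 * x * En (below A x) x := by
    rw [eventually_all]
    intro i
    rw [eventually_all]
    intro k
    filter_upwards [hUt (sum_hat_le ((Θ i k).image fun θ => θ + (ψ i - ψ k)))] with x hx
    have h1 := hx (below A x) (below_subset_range A x)
    rw [Finset.sum_image (fun _ _ _ _ hkk => add_right_cancel hkk)] at h1
    exact h1
  have E4 : ∀ᶠ x : ℕ in (U : Filter ℕ), ∀ i k,
      ∑ θ ∈ Θ i k with θ ∉ O, ‖hat (below A x) θ‖ ^ 4 ≤ η * x ^ 2 := by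
    rw [eventually_all]
    intro i
    rw [eventually_all]
    intro k
    have h1 : ∑ θ ∈ Θ i k with θ ∉ O, L θ < η := by
      have h2 := hO ((Θ i k).filter (· ∉ O)) (by
        rw [Finset.disjoint_left]
        intro θ hθ hθO
        exact (mem_filter.1 hθ).2 hθO)
      exact (le_abs_self _).trans_lt h2
    have h3 : Tendsto (fun x => ∑ θ ∈ Θ i k with θ ∉ O, u θ x) (U : Filter ℕ)
        (𝓝 (∑ θ ∈ Θ i k with θ ∉ O, L θ)) := tendsto_finsetSum _ fun θ _ => hLt θ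
    filter_upwards [h3.eventually (gt_mem_nhds h1), hUt (eventually_gt_atTop 0)] with x hx hx0
    have hx0' : (0 : ℝ) < x := by exact_mod_cast hx0
    simp only [hu] at hx
    rw [← Finset.sum_div, div_lt_iff₀ (by positivity)] at hx
    exact hx.le
  have E5 : ∀ᶠ x : ℕ in (U : Filter ℕ), ∀ i, δ * x ≤ ‖∑ p ∈ below A x ×ˢ below A x,
      v x p.1 p.2 * (ch p.1 (ψ i) * (starRingEnd ℂ) (h (ψ i) (p.1 + p.2)))‖ := by
    rw [eventually_all]
    intro i
    exact hUF (hcor (ψ i) (hψ i))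
  have E6 : ∀ᶠ x : ℕ in (U : Filter ℕ), En (below A x) x ≤ K * x := hUF hE
  have E7 : ∀ᶠ x : ℕ in (U : Filter ℕ), 0 < x := hUt (eventually_gt_atTop 0)
  have E8 : ∀ᶠ x : ℕ in (U : Filter ℕ), ∀ i k, ‖∑ p ∈ below A x ×ˢ below A x,
      ch p.1 (ψ i - ψ k) * qt (J i k) (d i k) (p.1 + p.2)‖ ≤ D / 8 * x := by
    rw [eventually_all]
    intro i
    rw [eventually_all]
    intro k
    filter_upwards [hUt (quad_small (J i k) (d i k) (hJ i k) hK (by positivity : 0 < D / 8)),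
      E6] with x hx hxE
    exact hx (below A x) (below_subset_range A x) hxE (ψ i - ψ k)
  obtain ⟨x, h1, h2, h3, h4, h5, hxE, hx0, h8⟩ :=
    (E1.and (E2.and (E3.and (E4.and (E5.and (E6.and (E7.and E8))))))).exists
  have hx0' : (0 : ℝ) < x := by exact_mod_cast hx0
  obtain ⟨ω, hω, hG⟩ := kernel_lower (below A x) ψ (fun i => h (ψ i)) (v x) (hv x)
  refine key' (below A x) hx0 (below_subset_range A x) hK hD0 hxE hR0 hN ψ (fun i => h (ψ i)) ω hω
    ?_ Θ c J d O hc h1 h8 ?_ h2 h3 h4 ?_ hRO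
  · set G : ℝ := ∑ p ∈ below A x ×ˢ below A x,
        ‖∑ i, ω i * (ch p.1 (ψ i) * (starRingEnd ℂ) (h (ψ i) (p.1 + p.2)))‖ ^ 2 with hGdef
    have hG0 : 0 ≤ G := Finset.sum_nonneg fun _ _ => sq_nonneg _
    have h6 : δ * x * N ≤ ∑ i, ‖∑ p ∈ below A x ×ˢ below A x,
        v x p.1 p.2 * (ch p.1 (ψ i) * (starRingEnd ℂ) (h (ψ i) (p.1 + p.2)))‖ := by
      have h7 := Finset.sum_le_sum (s := (Finset.univ : Finset (Fin N))) fun i _ => h5 i
      rw [Finset.sum_const, Finset.card_univ, Fintype.card_fin, nsmul_eq_mul] at h7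
      linarith
    have h8 : (δ * x * N) ^ 2 ≤ √(2 * K) * x * G :=
      (pow_le_pow_left₀ (by positivity) h6 2).trans (hG.trans
        (mul_le_mul_of_nonneg_right (card_sq_le' _ (below_subset_range A x) hK hxE) hG0))
    have h9 : √(2 * K) * x * (D * x * N ^ 2) = (δ * x * N) ^ 2 := by
      rw [hD]
      field_simp
    rw [← h9] at h8
    exact le_of_mul_le_mul_left h8 (by positivity)
  · rw [hε, mul_div_cancel₀ _ hK.ne']
  · rw [hη, mul_div_cancel₀ _ (by positivity)]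

end Pool.Agent.Helper37.PC
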