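import Pool.Agent.Helper37.PC.Core

/-! Choice functions correlated with quadratic almost periodic functions. -/

namespace Pool.Agent.Helper37.PC

open Finset Filter Topology
open Pool.Agent.Helper25.RC (repF rep below mem_below below_subset_range repF_below_le)
open Pool.Agent.Helper57.PC

/-- The general criterion: infinitely many characters of the first summand correlated with bounded
functions of the sum whose products are quadratic almost periodic. -/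
theorem meanSqInf_of_weights (A : Set ℕ) {δ : ℝ} (hδ : 0 < δ) (Ψ : Set Fr) (hΨ : Ψ.Infinite)
    (h : Fr → ℕ → ℂ)
    (hap : ∀ ψ ∈ Ψ, ∀ ψ' ∈ Ψ, BQ (fun n => (starRingEnd ℂ) (h ψ n) * h ψ' n))
    (hb : ∀ ψ ∈ Ψ, ∀ n, ‖h ψ n‖ ≤ 1)
    (v : ℕ → ℕ → ℕ → ℂ) (hv : ∀ x a b, ‖v x a b‖ ≤ 1)
    (hcor : ∀ ψ ∈ Ψ, ∀ᶠ x : ℕ in atTop, δ * x ≤ ‖∑ p ∈ below A x ×ˢ below A x,
      v x p.1 p.2 * (ch p.1 ψ * (starRingEnd ℂ) (h ψ (p.1 + p.2)))‖) : MeanSqInf A := by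
  by_contra hA
  obtain ⟨K, hK, F, hF, hFt, hE⟩ := exists_scales hA
  exact core' A F hFt hK hδ hE Ψ hΨ h hap hb v hv fun ψ hψ => hFt (hcor ψ hψ)

open Classical in
/-- The criterion for choice functions. -/
theorem meanSqInf_of_choice (A : Set ℕ) (D : Set ℕ) (f : ℕ → ℕ)
    (hf : ∀ n ∈ D, f n ≤ n ∧ f n ∈ A ∧ n - f n ∈ A) {δ : ℝ} (hδ : 0 < δ) (Ψ : Set Fr)
    (hΨ : Ψ.Infinite) (h : Fr → ℕ → ℂ)
    (hap : ∀ ψ ∈ Ψ, ∀ ψ' ∈ Ψ, BQ (fun n => (starRingEnd ℂ) (h ψ n) * h ψ' n))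
    (hb : ∀ ψ ∈ Ψ, ∀ n, ‖h ψ n‖ ≤ 1)
    (hcor : ∀ ψ ∈ Ψ, ∀ᶠ x : ℕ in atTop, δ * x ≤
      ‖∑ n ∈ range x with n ∈ D, ch (f n) ψ * (starRingEnd ℂ) (h ψ n)‖) : MeanSqInf A := by
  refine meanSqInf_of_weights A hδ Ψ hΨ h hap hb
    (fun x a b => if a + b < x ∧ a + b ∈ D ∧ a = f (a + b) then (1 : ℂ) else 0) (fun x a b => ?_)
    fun ψ hψ => ?_
  · split_ifs
    · rw [norm_one]
    · rw [norm_zero]
      exact zero_le_one
  · filter_upwards [hcor ψ hψ] with x hx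
    rw [choice_sum A D f hf x (fun a n => ch a ψ * (starRingEnd ℂ) (h ψ n))]
    exact hx

/-- Quadratic almost periodic sequences: mean square limits of finite sums of
`c e(α n² + β n)`. -/
def QuadraticAlmostPeriodic (g : ℕ → ℂ) : Prop :=
  ∀ ε : ℝ, 0 < ε → ∃ (J : Finset (ℝ × ℝ)) (c : ℝ × ℝ → ℂ), ∀ᶠ x : ℕ in atTop,
    ∑ n ∈ range x, ‖g n - ∑ j ∈ J, c j * e (j.1 * n ^ 2 + j.2 * n)‖ ^ 2 ≤ ε * x

/-- reduction of real frequencies modulo one -/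
def red (j : ℝ × ℝ) : Fr × Fr := ((j.1 : Fr), (j.2 : Fr))

lemma qc_red (n : ℕ) (j : ℝ × ℝ) : qc n (red j) = e (j.1 * n ^ 2 + j.2 * n) := by
  unfold qc red
  simp only
  rw [ch_eq_e, ch_eq_e]
  unfold e
  rw [← Complex.exp_add]
  congr 1
  push_cast
  ring

lemma QuadraticAlmostPeriodic.bq {g : ℕ → ℂ} (hg : QuadraticAlmostPeriodic g) : BQ g := by
  classical
  intro ε hε
  obtain ⟨J, c, h⟩ := hg ε hε
  refine ⟨J.image red, fun φ => ∑ j ∈ J.filter (fun j => red j = φ), c j, ?_⟩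
  filter_upwards [h] with x hx
  refine le_trans (le_of_eq (Finset.sum_congr rfl fun n _ => ?_)) hx
  have e1 : qt (J.image red) (fun φ => ∑ j ∈ J.filter (fun j => red j = φ), c j) n =
      ∑ j ∈ J, c j * e (j.1 * n ^ 2 + j.2 * n) := by
    unfold qt
    have e2 : ∀ φ ∈ J.image red,
        (∑ j ∈ J.filter (fun j => red j = φ), c j) * qc n φ =
          ∑ j ∈ J.filter (fun j => red j = φ), c j * e (j.1 * n ^ 2 + j.2 * n) := by
      intro φ _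
      rw [Finset.sum_mul]
      refine Finset.sum_congr rfl fun j hj => ?_
      rw [← qc_red, (mem_filter.1 hj).2]
    rw [Finset.sum_congr rfl e2,
      Finset.sum_fiberwise_of_maps_to fun j hj => mem_image_of_mem _ hj]
  rw [e1]

/-- almost periodic sequences are quadratic almost periodic -/
lemma QuadraticAlmostPeriodic.of_almostPeriodic {g : ℕ → ℂ} (hg : AlmostPeriodic g) :
    QuadraticAlmostPeriodic g := by
  classical
  intro ε hε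
  obtain ⟨Θ, c, h⟩ := hg ε hε
  refine ⟨Θ.image fun θ => ((0 : ℝ), θ), fun j => c j.2, ?_⟩
  filter_upwards [h] with x hx
  refine le_trans (le_of_eq (Finset.sum_congr rfl fun n _ => ?_)) hx
  rw [Finset.sum_image fun θ _ θ' _ he => (Prod.mk.inj he).2]
  simp only [zero_mul, zero_add]

open Classical in
/-- Quadratic Fourier analysis of a choice function: if `f(n)` and `n - f(n)` are in `A` for `n` in
`D` and if for infinitely many `ψ` modulo one the sequence `e(ψ f(n))`, `n` in `D`, is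
`δ`-correlated with some quadratic almost periodic sequence bounded by one, then the mean square of
the number of representations tends to infinity. -/
theorem meanSqInf_of_quadratic_choice (A : Set ℕ) (D : Set ℕ) (f : ℕ → ℕ)
    (hf : ∀ n ∈ D, f n ≤ n ∧ f n ∈ A ∧ n - f n ∈ A) {δ : ℝ} (hδ : 0 < δ)
    (hcor : {ψ : ℝ | 0 ≤ ψ ∧ ψ < 1 ∧ ∃ h : ℕ → ℂ, (∀ n, ‖h n‖ ≤ 1) ∧
      QuadraticAlmostPeriodic h ∧ ∀ᶠ x : ℕ in atTop, δ * x ≤
        ‖∑ n ∈ range x with n ∈ D, e (ψ * f n) * (starRingEnd ℂ) (h n)‖}.Infinite) :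
    MeanSqInf A := by
  set Ψ := {ψ : ℝ | 0 ≤ ψ ∧ ψ < 1 ∧ ∃ h : ℕ → ℂ, (∀ n, ‖h n‖ ≤ 1) ∧
      QuadraticAlmostPeriodic h ∧ ∀ᶠ x : ℕ in atTop, δ * x ≤
        ‖∑ n ∈ range x with n ∈ D, e (ψ * f n) * (starRingEnd ℂ) (h n)‖} with hΨ
  have hch : ∀ ψ : ℝ, ∃ h : ℕ → ℂ, ψ ∈ Ψ → (∀ n, ‖h n‖ ≤ 1) ∧ QuadraticAlmostPeriodic h ∧
      ∀ᶠ x : ℕ in atTop, δ * x ≤
        ‖∑ n ∈ range x with n ∈ D, e (ψ * f n) * (starRingEnd ℂ) (h n)‖ := by
    intro ψ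
    by_cases h : ψ ∈ Ψ
    · obtain ⟨g, hg⟩ := h.2.2
      exact ⟨g, fun _ => hg⟩
    · exact ⟨0, fun h' => absurd h' h⟩
  choose g hg using hch
  have hlift : ∀ ψ ∈ Ψ, lift (ψ : Fr) = ψ := fun ψ hψ => lift_coe ⟨hψ.1, hψ.2.1⟩
  refine meanSqInf_of_choice A D f hf hδ ((fun ψ : ℝ => (ψ : Fr)) '' Ψ) ?_ (fun φ => g (lift φ))
    ?_ ?_ ?_
  · refine hcor.image fun ψ hψ ψ' hψ' he => ?_
    have := congrArg lift he
    rwa [hlift ψ hψ, hlift ψ' hψ'] at this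
  · rintro _ ⟨ψ, hψ, rfl⟩ _ ⟨ψ', hψ', rfl⟩
    rw [hlift ψ hψ, hlift ψ' hψ']
    exact BQ.conj_mul (hg ψ hψ).1 (hg ψ hψ).2.1.bq (hg ψ' hψ').2.1.bq
  · rintro _ ⟨ψ, hψ, rfl⟩ n
    rw [hlift ψ hψ]
    exact (hg ψ hψ).1 n
  · rintro _ ⟨ψ, hψ, rfl⟩
    rw [hlift ψ hψ]
    refine (hg ψ hψ).2.2.mono fun x hx => ?_
    simp_rw [ch_eq_e]
    exact hx

end Pool.Agent.Helper37.PC
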