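import Pool.Agent.Helper37.PC.Quad

/-! Quadratic almost periodic functions. -/

namespace Pool.Agent.Helper37.PC

open Finset Filter Topology
open Pool.Agent.Helper57.PC

/-- trigonometric polynomials as a subspace -/
noncomputable def TP : Submodule ℂ (ℕ → ℂ) :=
  Submodule.span ℂ (Set.range fun θ : Fr => fun n : ℕ => ch n θ)

lemma ch_mem_TP (θ : Fr) : (fun n : ℕ => ch n θ) ∈ TP := Submodule.subset_span ⟨θ, rfl⟩

lemma exists_tp {u : ℕ → ℂ} (hu : u ∈ TP) : ∃ (Θ : Finset Fr) (c : Fr → ℂ), ∀ n, u n = tp Θ c n := by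
  unfold TP at hu
  rw [Finsupp.mem_span_range_iff_exists_finsupp] at hu
  obtain ⟨c, hc⟩ := hu
  refine ⟨c.support, c, fun n => ?_⟩
  rw [← hc]
  unfold Finsupp.sum tp
  rw [Finset.sum_apply]
  rfl

/-- detection of residue classes -/
lemma sum_ch_residue {q : ℕ} (hq : 0 < q) (n m : ℕ) :
    ∑ s ∈ range q, ch n (s • (((1 : ℝ) / q : ℝ) : Fr)) *
      (starRingEnd ℂ) (ch m (s • (((1 : ℝ) / q : ℝ) : Fr))) =
      if n % q = m % q then (q : ℂ) else 0 := by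
  set τ : Fr := (((1 : ℝ) / q : ℝ) : Fr) with hτ
  have hord : addOrderOf τ = q := AddCircle.addOrderOf_period_div hq
  have e : ∀ s, ch n (s • τ) * (starRingEnd ℂ) (ch m (s • τ)) = ch s (n • τ - m • τ) := by
    intro s
    rw [ch_sub, ← ch_mul_comm, ← ch_mul_comm, ← ch_mul_comm, ← ch_mul_comm, mul_comm n s,
      mul_comm m s]
  simp_rw [e]
  split_ifs with h
  · have h1 : n • τ = m • τ := by
      rw [nsmul_eq_nsmul_iff_modEq, hord]
      exact h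
    rw [h1, sub_self]
    simp [ch_zero]
  · have h1 : n • τ - m • τ ≠ 0 := by
      intro h0
      apply h
      have h2 := sub_eq_zero.1 h0
      rw [nsmul_eq_nsmul_iff_modEq, hord] at h2
      exact h2
    have h2 : ch 1 (n • τ - m • τ) ^ q = 1 := by
      rw [← ch_pow]
      unfold ch
      have h3 : q • (n • τ - m • τ) = 0 := by
        have h4 : q • τ = 0 := by
          rw [← hord]
          exact addOrderOf_nsmul_eq_zero τ
        rw [smul_sub, smul_comm q n, smul_comm q m, h4, smul_zero, smul_zero, sub_zero]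
      rw [h3]
      simp
    have h5 : ∑ s ∈ range q, ch s (n • τ - m • τ) =
        ∑ s ∈ range q, ch 1 (n • τ - m • τ) ^ s :=
      Finset.sum_congr rfl fun s _ => ch_pow s _
    rw [h5, geom_sum_eq (ch_one_ne h1), h2, sub_self, zero_div]

/-- rational quadratic phases are trigonometric polynomials -/
lemma qc_mem_TP {j : Fr × Fr} {q : ℕ} (hq : 0 < q) (hj : q • j.1 = 0) :
    (fun n : ℕ => qc n j) ∈ TP := by
  set τ : Fr := (((1 : ℝ) / q : ℝ) : Fr) with hτ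
  have hq' : (q : ℂ) ≠ 0 := by exact_mod_cast hq.ne'
  have e : (fun n : ℕ => qc n j) = ∑ m ∈ range q, ∑ s ∈ range q,
      ((ch (m * m) j.1 / q) * (starRingEnd ℂ) (ch m (s • τ))) •
        (fun n : ℕ => ch n (s • τ + j.2)) := by
    funext n
    rw [Finset.sum_apply]
    have e1 : ∀ m ∈ range q, (∑ s ∈ range q,
        ((ch (m * m) j.1 / q) * (starRingEnd ℂ) (ch m (s • τ))) •
          (fun n : ℕ => ch n (s • τ + j.2))) n =
        (ch (m * m) j.1 / q) * ch n j.2 * (if n % q = m % q then (q : ℂ) else 0) := by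
      intro m _
      rw [Finset.sum_apply, ← sum_ch_residue hq n m, Finset.mul_sum]
      refine Finset.sum_congr rfl fun s _ => ?_
      rw [Pi.smul_apply, smul_eq_mul, ch_add]
      ring
    rw [Finset.sum_congr rfl e1, Finset.sum_eq_single (n % q)]
    · rw [Nat.mod_mod, if_pos rfl]
      unfold qc
      have h1 : ch (n * n) j.1 = ch (n % q * (n % q)) j.1 := by
        unfold ch
        congr 2
        rw [nsmul_eq_nsmul_iff_modEq]
        have h2 : addOrderOf j.1 ∣ q := addOrderOf_dvd_of_nsmul_eq_zero hj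
        refine Nat.ModEq.of_dvd h2 ?_
        exact (Nat.mod_modEq n q).symm.mul (Nat.mod_modEq n q).symm
      rw [h1]
      field_simp
    · intro m hm hne
      rw [Nat.mod_eq_of_lt (mem_range.1 hm), if_neg (Ne.symm hne), mul_zero]
    · intro h
      exact absurd (mem_range.2 (Nat.mod_lt n hq)) h
  rw [e]
  exact Submodule.sum_mem _ fun m _ => Submodule.sum_mem _ fun s _ =>
    Submodule.smul_mem _ _ (ch_mem_TP _)

/-- quadratic almost periodic functions (mean square) -/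
def BQ (g : ℕ → ℂ) : Prop :=
  ∀ ε : ℝ, 0 < ε → ∃ (J : Finset (Fr × Fr)) (d : Fr × Fr → ℂ), ∀ᶠ x : ℕ in atTop,
    ∑ n ∈ range x, ‖g n - qt J d n‖ ^ 2 ≤ ε * x

lemma norm_qt_le (J : Finset (Fr × Fr)) (d : Fr × Fr → ℂ) (n : ℕ) :
    ‖qt J d n‖ ≤ ∑ j ∈ J, ‖d j‖ := by
  unfold qt
  refine (norm_sum_le _ _).trans (Finset.sum_le_sum fun j _ => ?_)
  rw [norm_mul, norm_qc, mul_one]

/-- products of quadratic trigonometric polynomials -/
lemma qt_conj_mul (J₁ : Finset (Fr × Fr)) (d₁ : Fr × Fr → ℂ) (J₂ : Finset (Fr × Fr))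
    (d₂ : Fr × Fr → ℂ) : ∃ (J : Finset (Fr × Fr)) (d : Fr × Fr → ℂ), ∀ n,
      (starRingEnd ℂ) (qt J₁ d₁ n) * qt J₂ d₂ n = qt J d n := by
  classical
  refine ⟨(J₁ ×ˢ J₂).image fun p => p.2 - p.1,
    fun φ => ∑ p ∈ J₁ ×ˢ J₂ with p.2 - p.1 = φ, (starRingEnd ℂ) (d₁ p.1) * d₂ p.2, fun n => ?_⟩
  unfold qt
  have e : ∀ φ ∈ (J₁ ×ˢ J₂).image (fun p => p.2 - p.1),
      (∑ p ∈ J₁ ×ˢ J₂ with p.2 - p.1 = φ, (starRingEnd ℂ) (d₁ p.1) * d₂ p.2) * qc n φ =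
      ∑ p ∈ J₁ ×ˢ J₂ with p.2 - p.1 = φ,
        (starRingEnd ℂ) (d₁ p.1) * d₂ p.2 * qc n (p.2 - p.1) := by
    intro φ _
    rw [Finset.sum_mul]
    refine Finset.sum_congr rfl fun p hp => ?_
    rw [(mem_filter.1 hp).2]
  rw [Finset.sum_congr rfl e, Finset.sum_fiberwise_of_maps_to fun p hp => mem_image_of_mem _ hp,
    map_sum, Finset.sum_mul_sum, ← Finset.sum_product']
  refine Finset.sum_congr rfl fun p _ => ?_
  rw [qc_sub, map_mul]
  ring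

/-- products of bounded quadratic almost periodic functions -/
lemma BQ.conj_mul {g h : ℕ → ℂ} (hg : ∀ n, ‖g n‖ ≤ 1) (Bg : BQ g) (Bh : BQ h) :
    BQ (fun n => (starRingEnd ℂ) (g n) * h n) := by
  intro ε hε
  obtain ⟨Θ₂, c₂, h₂⟩ := Bh (ε / 4) (by positivity)
  set M : ℝ := ∑ θ ∈ Θ₂, ‖c₂ θ‖ with hM
  have hM0 : 0 ≤ M := Finset.sum_nonneg fun _ _ => norm_nonneg _
  obtain ⟨Θ₁, c₁, h₁⟩ := Bg (ε / (4 * (M ^ 2 + 1))) (by positivity)
  obtain ⟨Θ, c, e⟩ := qt_conj_mul Θ₁ c₁ Θ₂ c₂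
  refine ⟨Θ, c, ?_⟩
  filter_upwards [h₁, h₂] with x hx₁ hx₂
  have h3 : ∑ n ∈ range x, ‖(starRingEnd ℂ) (g n) * h n - qt Θ c n‖ ^ 2 ≤
      ∑ n ∈ range x, (2 * ‖h n - qt Θ₂ c₂ n‖ ^ 2 + 2 * M ^ 2 * ‖g n - qt Θ₁ c₁ n‖ ^ 2) := by
    refine Finset.sum_le_sum fun n _ => ?_
    rw [← e n]
    have e2 : (starRingEnd ℂ) (g n) * h n - (starRingEnd ℂ) (qt Θ₁ c₁ n) * qt Θ₂ c₂ n =
        (starRingEnd ℂ) (g n) * (h n - qt Θ₂ c₂ n) +
          (starRingEnd ℂ) (g n - qt Θ₁ c₁ n) * qt Θ₂ c₂ n := by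
      rw [map_sub]
      ring
    rw [e2]
    refine (sq_add_le _ _).trans ?_
    rw [norm_mul, norm_mul, RCLike.norm_conj, RCLike.norm_conj, mul_pow, mul_pow]
    have h4 : ‖g n‖ ^ 2 ≤ 1 := pow_le_one₀ (norm_nonneg _) (hg n)
    have h5 : ‖qt Θ₂ c₂ n‖ ^ 2 ≤ M ^ 2 := pow_le_pow_left₀ (norm_nonneg _) (norm_qt_le _ _ _) 2
    have h6 : ‖g n‖ ^ 2 * ‖h n - qt Θ₂ c₂ n‖ ^ 2 ≤ ‖h n - qt Θ₂ c₂ n‖ ^ 2 :=
      mul_le_of_le_one_left (sq_nonneg _) h4
    have h7 : ‖g n - qt Θ₁ c₁ n‖ ^ 2 * ‖qt Θ₂ c₂ n‖ ^ 2 ≤ ‖g n - qt Θ₁ c₁ n‖ ^ 2 * M ^ 2 :=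
      mul_le_mul_of_nonneg_left h5 (sq_nonneg _)
    nlinarith
  rw [Finset.sum_add_distrib, ← Finset.mul_sum, ← Finset.mul_sum] at h3
  have hx0 : (0 : ℝ) ≤ x := Nat.cast_nonneg _
  have h8 : 2 * M ^ 2 * ∑ n ∈ range x, ‖g n - qt Θ₁ c₁ n‖ ^ 2 ≤ ε / 2 * x := by
    calc 2 * M ^ 2 * ∑ n ∈ range x, ‖g n - qt Θ₁ c₁ n‖ ^ 2 ≤
          2 * M ^ 2 * (ε / (4 * (M ^ 2 + 1)) * x) := mul_le_mul_of_nonneg_left hx₁ (by positivity)
      _ = (M ^ 2 / (M ^ 2 + 1)) * (ε / 2 * x) := by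
          field_simp
          ring
      _ ≤ 1 * (ε / 2 * x) := by
          refine mul_le_mul_of_nonneg_right ?_ (by positivity)
          rw [div_le_one (by positivity)]
          linarith
      _ = _ := one_mul _
  linarith

/-- the linear part and the irrational part -/
lemma BQ.split {g : ℕ → ℂ} (hg : BQ g) {ε : ℝ} (hε : 0 < ε) :
    ∃ (Θ : Finset Fr) (c : Fr → ℂ) (J : Finset (Fr × Fr)) (d : Fr × Fr → ℂ),
      (∀ j ∈ J, ∀ q : ℕ, 0 < q → q • j.1 ≠ 0) ∧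
      ∀ᶠ x : ℕ in atTop, ∑ n ∈ range x, ‖g n - (tp Θ c n + qt J d n)‖ ^ 2 ≤ ε * x := by
  classical
  obtain ⟨J, d, h⟩ := hg ε hε
  have h1 : (fun n => qt (J.filter fun j => ∃ q : ℕ, 0 < q ∧ q • j.1 = 0) d n) ∈ TP := by
    have e : (fun n => qt (J.filter fun j => ∃ q : ℕ, 0 < q ∧ q • j.1 = 0) d n) =
        ∑ j ∈ J.filter (fun j => ∃ q : ℕ, 0 < q ∧ q • j.1 = 0), d j • fun n => qc n j := by
      funext n
      rw [Finset.sum_apply]
      rfl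
    rw [e]
    refine Submodule.sum_mem _ fun j hj => Submodule.smul_mem _ _ ?_
    obtain ⟨q, hq, hj⟩ := (mem_filter.1 hj).2
    exact qc_mem_TP hq hj
  obtain ⟨Θ, c, hc⟩ := exists_tp h1
  refine ⟨Θ, c, J.filter fun j => ¬ ∃ q : ℕ, 0 < q ∧ q • j.1 = 0, d, ?_, ?_⟩
  · intro j hj q hq h0
    exact (mem_filter.1 hj).2 ⟨q, hq, h0⟩
  · refine h.mono fun x hx => le_trans (le_of_eq (Finset.sum_congr rfl fun n _ => ?_)) hx
    rw [← hc n]
    unfold qt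
    rw [Finset.sum_filter_add_sum_filter_not]

/-- the coefficients of the linear part -/
lemma coef_le_of_split {g : ℕ → ℂ} (hg : ∀ n, ‖g n‖ ≤ 1) {Θ : Finset Fr} {c : Fr → ℂ}
    {J : Finset (Fr × Fr)} {d : Fr × Fr → ℂ} {ε : ℝ} (hε : ε ≤ 1)
    (hJ : ∀ j ∈ J, ∀ q : ℕ, 0 < q → q • j.1 ≠ 0)
    (h : ∀ᶠ x : ℕ in atTop, ∑ n ∈ range x, ‖g n - (tp Θ c n + qt J d n)‖ ^ 2 ≤ ε * x) :
    ∑ θ ∈ Θ, ‖c θ‖ ^ 2 ≤ 4 := by
  have h1 : Tendsto (fun x : ℕ => (∑ n ∈ range x, qt J d n * (starRingEnd ℂ) (tp Θ c n)) / x)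
      atTop (𝓝 0) := by
    have e : ∀ x : ℕ, (∑ n ∈ range x, qt J d n * (starRingEnd ℂ) (tp Θ c n)) / (x : ℂ) =
        ∑ j ∈ J, ∑ θ ∈ Θ, (d j * (starRingEnd ℂ) (c θ)) *
          ((∑ n ∈ range x, qc n (j.1, j.2 - θ)) / x) := by
      intro x
      have e2 : ∀ n ∈ range x, qt J d n * (starRingEnd ℂ) (tp Θ c n) =
          ∑ j ∈ J, ∑ θ ∈ Θ, (d j * (starRingEnd ℂ) (c θ)) * qc n (j.1, j.2 - θ) := by
        intro n _
        unfold qt tp
        rw [map_sum, Finset.sum_mul_sum]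
        refine Finset.sum_congr rfl fun j _ => Finset.sum_congr rfl fun θ _ => ?_
        unfold qc
        simp only
        rw [ch_sub, map_mul]
        ring
      rw [Finset.sum_congr rfl e2, Finset.sum_comm, Finset.sum_div]
      refine Finset.sum_congr rfl fun j _ => ?_
      rw [Finset.sum_comm, Finset.sum_div]
      refine Finset.sum_congr rfl fun θ _ => ?_
      rw [← Finset.mul_sum, mul_div_assoc]
    simp_rw [e]
    have h2 : Tendsto (fun x : ℕ => ∑ j ∈ J, ∑ θ ∈ Θ, (d j * (starRingEnd ℂ) (c θ)) *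
          ((∑ n ∈ range x, qc n (j.1, j.2 - θ)) / (x : ℂ))) atTop
        (𝓝 (∑ j ∈ J, ∑ θ ∈ Θ, (d j * (starRingEnd ℂ) (c θ)) * 0)) := by
      refine tendsto_finsetSum _ fun j hj => tendsto_finsetSum _ fun θ _ => ?_
      exact (weyl (j := (j.1, j.2 - θ)) (hJ j hj)).const_mul _
    simpa using h2
  have h2 := (Complex.continuous_re.tendsto _).comp h1
  have h3 : Tendsto (fun x : ℕ => (∑ n ∈ range x, ‖tp Θ c n‖ ^ 2) / x +
      2 * ((∑ n ∈ range x, qt J d n * (starRingEnd ℂ) (tp Θ c n)) / x).re) atTop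
      (𝓝 (∑ θ ∈ Θ, ‖c θ‖ ^ 2 + 2 * 0)) := (tendsto_mean_sq Θ c).add (h2.const_mul 2)
  rw [mul_zero, add_zero] at h3
  refine le_of_tendsto h3 ?_
  filter_upwards [h, eventually_gt_atTop 0] with x hx hx0
  have hx0' : (0 : ℝ) < x := by exact_mod_cast hx0
  have e4 : ((∑ n ∈ range x, qt J d n * (starRingEnd ℂ) (tp Θ c n)) / (x : ℂ)).re =
      (∑ n ∈ range x, (qt J d n * (starRingEnd ℂ) (tp Θ c n)).re) / x := by
    rw [← Complex.ofReal_natCast, Complex.div_ofReal_re, Complex.re_sum]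
  rw [e4, ← mul_div_assoc, ← add_div, div_le_iff₀ hx0', Finset.mul_sum,
    ← Finset.sum_add_distrib]
  have h5 : ∑ n ∈ range x, (‖tp Θ c n‖ ^ 2 + 2 * (qt J d n * (starRingEnd ℂ) (tp Θ c n)).re) ≤
      ∑ n ∈ range x, (2 + 2 * ‖g n - (tp Θ c n + qt J d n)‖ ^ 2) := by
    refine Finset.sum_le_sum fun n _ => ?_
    have h6 : ‖tp Θ c n‖ ^ 2 + 2 * (qt J d n * (starRingEnd ℂ) (tp Θ c n)).re ≤
        ‖tp Θ c n + qt J d n‖ ^ 2 := by
      have h7 := Complex.normSq_add (qt J d n) (tp Θ c n)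
      simp only [Complex.normSq_eq_norm_sq] at h7
      rw [add_comm (tp Θ c n)]
      nlinarith [sq_nonneg ‖qt J d n‖]
    refine h6.trans ?_
    have e : tp Θ c n + qt J d n = g n + -(g n - (tp Θ c n + qt J d n)) := by ring
    have h8 := sq_add_le (g n) (-(g n - (tp Θ c n + qt J d n)))
    rw [← e, norm_neg] at h8
    have h9 : ‖g n‖ ^ 2 ≤ 1 := pow_le_one₀ (norm_nonneg _) (hg n)
    linarith
  refine h5.trans ?_
  rw [Finset.sum_add_distrib, ← Finset.mul_sum, Finset.sum_const, card_range, nsmul_eq_mul]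
  nlinarith

end Pool.Agent.Helper37.PC
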