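import Pool.Agent.Helper57.PC.AP

/-! Bilinear sums with an irrational quadratic phase over a set of small additive energy. -/

namespace Pool.Agent.Helper37.PC

open Finset Filter Topology
open Pool.Agent.Helper25.RC (repF)
open Pool.Agent.Helper57.PC

/-- second moments of fibres -/
lemma sum_card_fiber_sq {α : Type*} (P : Finset α) (g : α → ℕ) (M : ℕ)
    (hmaps : ∀ p ∈ P, g p ∈ range M) :
    ∑ m ∈ range M, #{p ∈ P | g p = m} ^ 2 = #{q ∈ P ×ˢ P | g q.1 = g q.2} := by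
  classical
  rw [Finset.card_eq_sum_card_fiberwise (f := fun q : α × α => g q.1) (t := range M)]
  · refine Finset.sum_congr rfl fun m _ => ?_
    rw [sq, ← Finset.card_product]
    congr 1
    ext q
    simp only [mem_product, mem_filter]
    constructor
    · rintro ⟨⟨h1, h2⟩, h3, h4⟩
      exact ⟨⟨⟨h1, h3⟩, h2.trans h4.symm⟩, h2⟩
    · rintro ⟨⟨⟨h1, h3⟩, h4⟩, h2⟩
      exact ⟨⟨h1, h2⟩, h3, h4.symm.trans h2⟩
  · intro q hq
    simp only [Finset.coe_filter, mem_product, Set.mem_ofPred_eq] at hq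
    exact hmaps _ hq.1.1

/-- the energy is also the second moment of the differences -/
lemma energy_diff (S : Finset ℕ) {x : ℕ} (hS : S ⊆ range x) :
    ∑ m ∈ range (2 * x), ((#{p ∈ S ×ˢ S | p.1 + (x - p.2) = m} : ℕ) : ℝ) ^ 2 = En S x := by
  classical
  have h1 := sum_card_fiber_sq (S ×ˢ S) (fun p : ℕ × ℕ => p.1 + (x - p.2)) (2 * x) (by
    intro p hp
    rw [mem_product] at hp
    have h1 := mem_range.1 (hS hp.1)
    have h2 := mem_range.1 (hS hp.2)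
    show p.1 + (x - p.2) ∈ range (2 * x)
    rw [mem_range]
    omega)
  have h2 := sum_card_fiber_sq (S ×ˢ S) (fun p : ℕ × ℕ => p.1 + p.2) (2 * x) (by
    intro p hp
    rw [mem_product] at hp
    have h1 := mem_range.1 (hS hp.1)
    have h2 := mem_range.1 (hS hp.2)
    show p.1 + p.2 ∈ range (2 * x)
    rw [mem_range]
    omega)
  have h3 : #{q ∈ (S ×ˢ S) ×ˢ (S ×ˢ S) | q.1.1 + (x - q.1.2) = q.2.1 + (x - q.2.2)} =
      #{q ∈ (S ×ˢ S) ×ˢ (S ×ˢ S) | q.1.1 + q.1.2 = q.2.1 + q.2.2} := by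
    refine Finset.card_nbij' (fun q => ((q.1.1, q.2.2), (q.2.1, q.1.2)))
      (fun q => ((q.1.1, q.2.2), (q.2.1, q.1.2))) ?_ ?_ ?_ ?_
    · intro q hq
      simp only [Finset.coe_filter, mem_product, Set.mem_ofPred_eq] at hq ⊢
      obtain ⟨⟨⟨h1, h2⟩, h3, h4⟩, h5⟩ := hq
      refine ⟨⟨⟨h1, h4⟩, h3, h2⟩, ?_⟩
      have e1 := mem_range.1 (hS h2)
      have e2 := mem_range.1 (hS h4)
      omega
    · intro q hq
      simp only [Finset.coe_filter, mem_product, Set.mem_ofPred_eq] at hq ⊢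
      obtain ⟨⟨⟨h1, h2⟩, h3, h4⟩, h5⟩ := hq
      refine ⟨⟨⟨h1, h4⟩, h3, h2⟩, ?_⟩
      have e1 := mem_range.1 (hS h2)
      have e2 := mem_range.1 (hS h4)
      omega
    · intro q _
      rfl
    · intro q _
      rfl
  unfold En repF
  have h4 := h1.trans (h3.trans h2.symm)
  exact_mod_cast h4

/-- sums over differences -/
lemma sum_diff_le (S : Finset ℕ) {x : ℕ} (hS : S ⊆ range x) (w : ℕ → ℝ) :
    (∑ p ∈ S ×ˢ S, w (p.1 + (x - p.2))) ^ 2 ≤ En S x * ∑ m ∈ range (2 * x), w m ^ 2 := by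
  classical
  have hmaps : ∀ p ∈ S ×ˢ S, p.1 + (x - p.2) ∈ range (2 * x) := by
    intro p hp
    rw [mem_product] at hp
    have h1 := mem_range.1 (hS hp.1)
    have h2 := mem_range.1 (hS hp.2)
    rw [mem_range]
    omega
  have e : ∑ p ∈ S ×ˢ S, w (p.1 + (x - p.2)) = ∑ m ∈ range (2 * x),
      ((#{p ∈ S ×ˢ S | p.1 + (x - p.2) = m} : ℕ) : ℝ) * w m := by
    rw [← Finset.sum_fiberwise_of_maps_to hmaps]
    refine Finset.sum_congr rfl fun m _ => ?_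
    rw [Finset.sum_congr rfl (g := fun _ => w m), Finset.sum_const, nsmul_eq_mul]
    intro p hp
    rw [(mem_filter.1 hp).2]
  rw [e, ← energy_diff S hS]
  exact Finset.sum_mul_sq_le_sq_mul_sq _ _ _

/-- squares of sums of characters over a set -/
lemma sq_norm_sum {ι : Type*} (S : Finset ι) (u : ι → ℂ) :
    ((‖∑ a ∈ S, u a‖ ^ 2 : ℝ) : ℂ) = ∑ p ∈ S ×ˢ S, u p.1 * (starRingEnd ℂ) (u p.2) := by
  push_cast
  rw [← Complex.mul_conj', map_sum, Finset.sum_mul_sum, ← Finset.sum_product']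

lemma ch_mul_comm (a b : ℕ) (θ : Fr) : ch (a * b) θ = ch a (b • θ) := by
  unfold ch
  rw [mul_smul]

lemma ch_mul_comm' (a b : ℕ) (θ : Fr) : ch (a * b) θ = ch b (a • θ) := by
  rw [mul_comm, ch_mul_comm]

/-- the first step -/
lemma step1 (S : Finset ℕ) {x : ℕ} (hS : S ⊆ range x) (θ : Fr) (φ φ' : ℕ → ℂ)
    (hφ : ∀ n, ‖φ n‖ ≤ 1) (hφ' : ∀ n, ‖φ' n‖ ≤ 1) :
    ‖∑ p ∈ S ×ˢ S, φ p.1 * φ' p.2 * ch (p.1 * p.2) θ‖ ^ 2 ≤
      #S * ∑ p ∈ S ×ˢ S, ‖hat S ((p.1 + (x - p.2)) • θ - x • θ)‖ := by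
  have h1 : ‖∑ p ∈ S ×ˢ S, φ p.1 * φ' p.2 * ch (p.1 * p.2) θ‖ ≤
      ∑ a ∈ S, 1 * ‖∑ b ∈ S, φ' b * ch a (b • θ)‖ := by
    rw [Finset.sum_product]
    refine (norm_sum_le _ _).trans (Finset.sum_le_sum fun a _ => ?_)
    have e : ∑ b ∈ S, φ a * φ' b * ch (a * b) θ = φ a * ∑ b ∈ S, φ' b * ch a (b • θ) := by
      rw [Finset.mul_sum]
      refine Finset.sum_congr rfl fun b _ => ?_
      rw [ch_mul_comm]
      ring
    rw [e, norm_mul]
    exact mul_le_mul_of_nonneg_right (hφ a) (norm_nonneg _)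
  refine (pow_le_pow_left₀ (norm_nonneg _) h1 2).trans ?_
  refine (Finset.sum_mul_sq_le_sq_mul_sq _ _ _).trans ?_
  rw [Finset.sum_const, one_pow, nsmul_eq_mul, mul_one]
  refine mul_le_mul_of_nonneg_left ?_ (Nat.cast_nonneg _)
  have e2 : ((∑ a ∈ S, ‖∑ b ∈ S, φ' b * ch a (b • θ)‖ ^ 2 : ℝ) : ℂ) =
      ∑ p ∈ S ×ˢ S, (φ' p.1 * (starRingEnd ℂ) (φ' p.2)) *
        hat S ((p.1 + (x - p.2)) • θ - x • θ) := by
    rw [Complex.ofReal_sum, Finset.sum_congr rfl fun a _ => sq_norm_sum S _, Finset.sum_comm]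
    refine Finset.sum_congr rfl fun p hp => ?_
    unfold hat
    rw [Finset.mul_sum]
    refine Finset.sum_congr rfl fun a _ => ?_
    have h3 : (p.1 + (x - p.2)) • θ - x • θ = p.1 • θ - p.2 • θ := by
      have h4 := mem_range.1 (hS (mem_product.1 hp).2)
      have h5 : x • θ = (x - p.2) • θ + p.2 • θ := by
        rw [← add_smul]
        congr 1
        omega
      rw [h5, add_smul]
      abel
    rw [h3, ch_sub, map_mul]
    ring
  have h6 : ∑ a ∈ S, ‖∑ b ∈ S, φ' b * ch a (b • θ)‖ ^ 2 ≤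
      ‖((∑ a ∈ S, ‖∑ b ∈ S, φ' b * ch a (b • θ)‖ ^ 2 : ℝ) : ℂ)‖ := by
    rw [Complex.norm_real]
    exact le_abs_self _
  rw [e2] at h6
  refine h6.trans ((norm_sum_le _ _).trans (Finset.sum_le_sum fun p _ => ?_))
  rw [norm_mul, norm_mul, RCLike.norm_conj]
  exact mul_le_of_le_one_left (norm_nonneg _) (mul_le_one₀ (hφ' _) (norm_nonneg _) (hφ' _))

/-- the third step -/
lemma step3 (S : Finset ℕ) {x : ℕ} (hS : S ⊆ range x) (θ : Fr) :
    ∑ m ∈ range (2 * x), ‖hat S (m • θ - x • θ)‖ ^ 2 ≤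
      ∑ p ∈ S ×ˢ S, ‖∑ m ∈ range (2 * x), ch m ((p.1 + (x - p.2)) • θ - x • θ)‖ := by
  have e2 : ((∑ m ∈ range (2 * x), ‖hat S (m • θ - x • θ)‖ ^ 2 : ℝ) : ℂ) =
      ∑ p ∈ S ×ˢ S, (starRingEnd ℂ) (ch x ((p.1 + (x - p.2)) • θ - x • θ)) *
        ∑ m ∈ range (2 * x), ch m ((p.1 + (x - p.2)) • θ - x • θ) := by
    unfold hat
    rw [Complex.ofReal_sum, Finset.sum_congr rfl fun m _ => sq_norm_sum S _, Finset.sum_comm]
    refine Finset.sum_congr rfl fun p hp => ?_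
    rw [Finset.mul_sum]
    refine Finset.sum_congr rfl fun m _ => ?_
    have h3 : (p.1 + (x - p.2)) • θ - x • θ = p.1 • θ - p.2 • θ := by
      have h4 := mem_range.1 (hS (mem_product.1 hp).2)
      have h5 : x • θ = (x - p.2) • θ + p.2 • θ := by
        rw [← add_smul]
        congr 1
        omega
      rw [h5, add_smul]
      abel
    rw [h3, ch_sub, ch_sub, ch_sub, ch_sub, ← ch_mul_comm, ← ch_mul_comm, ← ch_mul_comm,
      ← ch_mul_comm, ← ch_mul_comm, ← ch_mul_comm, ← ch_mul_comm, ← ch_mul_comm, map_mul,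
      map_mul, Complex.conj_conj, Complex.conj_conj, mul_comm p.1 m, mul_comm p.2 m,
      mul_comm p.1 x, mul_comm p.2 x]
    ring
  have h6 : ∑ m ∈ range (2 * x), ‖hat S (m • θ - x • θ)‖ ^ 2 ≤
      ‖((∑ m ∈ range (2 * x), ‖hat S (m • θ - x • θ)‖ ^ 2 : ℝ) : ℂ)‖ := by
    rw [Complex.norm_real]
    exact le_abs_self _
  rw [e2] at h6
  refine h6.trans ((norm_sum_le _ _).trans (Finset.sum_le_sum fun p _ => ?_))
  rw [norm_mul, RCLike.norm_conj, norm_ch, one_mul]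

/-- separated sets are sparse -/
lemma card_sep_le (P : Finset ℕ) {M H : ℕ} (hH : 0 < H) (hP : P ⊆ range M)
    (hsep : ∀ l ∈ P, ∀ l' ∈ P, l < l' → H < l' - l) : #P ≤ M / H + 1 := by
  classical
  have h1 : #P ≤ #(range (M / H + 1)) := by
    refine Finset.card_le_card_of_injOn (fun l => l / H) ?_ ?_
    · intro l hl
      have h2 := mem_range.1 (hP hl)
      simp only [coe_range, Set.mem_Iio]
      have : l / H ≤ M / H := Nat.div_le_div_right h2.le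
      omega
    · intro l hl l' hl' he
      simp only at he
      by_contra hne
      rcases lt_or_gt_of_ne hne with h | h
      · have h3 := hsep l hl l' hl' h
        have h4 : l + H ≤ l' := by omega
        have h5 : (l + H) / H ≤ l' / H := Nat.div_le_div_right h4
        rw [Nat.add_div_right _ hH] at h5
        omega
      · have h3 := hsep l' hl' l hl h
        have h4 : l' + H ≤ l := by omega
        have h5 : (l' + H) / H ≤ l / H := Nat.div_le_div_right h4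
        rw [Nat.add_div_right _ hH] at h5
        omega
  rwa [card_range] at h1

/-- small values of an irrational rotation are sparse -/
lemma exists_kappa {θ : Fr} (hθ : ∀ q : ℕ, 0 < q → q • θ ≠ 0) (H : ℕ) :
    ∃ κ : ℝ, 0 < κ ∧ ∀ q : ℕ, 0 < q → q ≤ H → 2 * κ ≤ ‖ch 1 (q • θ) - 1‖ := by
  induction H with
  | zero => exact ⟨1, one_pos, fun q h1 h2 => by omega⟩
  | succ H ih =>
    obtain ⟨κ, h0, h1⟩ := ih
    have h2 : 0 < ‖ch 1 ((H + 1) • θ) - 1‖ :=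
      norm_pos_iff.2 (sub_ne_zero.2 (ch_one_ne (hθ _ (Nat.succ_pos _))))
    refine ⟨min κ (‖ch 1 ((H + 1) • θ) - 1‖ / 2), lt_min h0 (by positivity), fun q h3 h4 => ?_⟩
    rcases Nat.lt_or_ge q (H + 1) with h5 | h5
    · have h6 := h1 q h3 (by omega)
      have h7 := min_le_left κ (‖ch 1 ((H + 1) • θ) - 1‖ / 2)
      linarith
    · have h6 : q = H + 1 := le_antisymm h4 h5
      have h7 := min_le_right κ (‖ch 1 ((H + 1) • θ) - 1‖ / 2)
      rw [h6]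
      linarith

lemma norm_sum_ch_le (M : ℕ) (t : Fr) : ‖∑ m ∈ range M, ch m t‖ ≤ M := by
  refine (norm_sum_le _ _).trans ?_
  simp_rw [norm_ch]
  simp

/-- the count -/
lemma count (θ : Fr) (hθ : ∀ q : ℕ, 0 < q → q • θ ≠ 0) {ε : ℝ} (hε : 0 < ε) :
    ∀ᶠ x : ℕ in atTop, ∑ l ∈ range (2 * x),
      ‖∑ m ∈ range (2 * x), ch m (l • θ - x • θ)‖ ^ 2 ≤ ε * x ^ 3 := by
  classical
  obtain ⟨H, hH⟩ := exists_nat_gt (24 / ε)
  have hH0 : (0 : ℝ) < H := lt_trans (by positivity) hH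
  have hHpos : 0 < H := by exact_mod_cast hH0
  obtain ⟨κ, hκ0, hκ⟩ := exists_kappa hθ H
  obtain ⟨x₀, hx₀⟩ := exists_nat_ge (24 / (κ ^ 2 * ε) + 12 / ε + 1)
  filter_upwards [eventually_ge_atTop x₀] with x hx
  have hx1 : 24 / (κ ^ 2 * ε) + 12 / ε + 1 ≤ (x : ℝ) :=
    hx₀.trans (by exact_mod_cast hx)
  have hA : 0 ≤ 24 / (κ ^ 2 * ε) := by positivity
  have hB : 0 ≤ 12 / ε := by positivity
  have hx0 : (1 : ℝ) ≤ x := by linarith
  have hxA : 24 / (κ ^ 2 * ε) ≤ (x : ℝ) := by linarith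
  have hxB : 12 / ε ≤ (x : ℝ) := by linarith
  set P := (range (2 * x)).filter fun l => ‖ch 1 (l • θ - x • θ) - 1‖ < κ with hP
  have hcard : #P ≤ 2 * x / H + 1 := by
    refine card_sep_le P hHpos (Finset.filter_subset _ _) ?_
    intro l hl l' hl' hlt
    by_contra hcon
    have h1 := hκ (l' - l) (by omega) (by omega)
    have h2 := (mem_filter.1 hl).2
    have h3 := (mem_filter.1 hl').2
    have h4 : (l' - l) • θ = (l' • θ - x • θ) - (l • θ - x • θ) := by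
      have : l' • θ = (l' - l) • θ + l • θ := by
        rw [← add_smul]
        congr 1
        omega
      rw [this]
      abel
    have h5 : ‖ch 1 ((l' - l) • θ) - 1‖ =
        ‖ch 1 (l' • θ - x • θ) - ch 1 (l • θ - x • θ)‖ := by
      rw [h4, ch_sub]
      have h6 : ch 1 (l' • θ - x • θ) * (starRingEnd ℂ) (ch 1 (l • θ - x • θ)) - 1 =
          (ch 1 (l' • θ - x • θ) - ch 1 (l • θ - x • θ)) *
            (starRingEnd ℂ) (ch 1 (l • θ - x • θ)) := by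
        have h7 := ch_conj_mul 1 (l • θ - x • θ)
        rw [sub_mul]
        rw [mul_comm (ch 1 (l • θ - x • θ)), h7]
      rw [h6, norm_mul, RCLike.norm_conj, norm_ch, mul_one]
    have h8 : ‖ch 1 (l' • θ - x • θ) - ch 1 (l • θ - x • θ)‖ ≤
        ‖ch 1 (l' • θ - x • θ) - 1‖ + ‖ch 1 (l • θ - x • θ) - 1‖ := by
      have e : ch 1 (l' • θ - x • θ) - ch 1 (l • θ - x • θ) =
          (ch 1 (l' • θ - x • θ) - 1) - (ch 1 (l • θ - x • θ) - 1) := by ring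
      rw [e]
      exact norm_sub_le _ _
    linarith
  have hbound : ∀ l ∈ range (2 * x), ‖∑ m ∈ range (2 * x), ch m (l • θ - x • θ)‖ ^ 2 ≤
      4 / κ ^ 2 + if l ∈ P then 4 * (x : ℝ) ^ 2 else 0 := by
    intro l hl
    split_ifs with h
    · have h1 := norm_sum_ch_le (2 * x) (l • θ - x • θ)
      have h2 := pow_le_pow_left₀ (norm_nonneg _) h1 2
      push_cast at h2
      have h3 : 0 ≤ 4 / κ ^ 2 := by positivity
      nlinarith
    · have h1 : κ ≤ ‖ch 1 (l • θ - x • θ) - 1‖ := by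
        by_contra hc
        exact h (mem_filter.2 ⟨hl, not_le.1 hc⟩)
      have h2 : l • θ - x • θ ≠ 0 := by
        intro h0
        rw [h0, ch_zero, sub_self, norm_zero] at h1
        linarith
      have h3 := sum_ch_le h2 (2 * x)
      have h4 : ‖∑ m ∈ range (2 * x), ch m (l • θ - x • θ)‖ ≤ 2 / κ :=
        h3.trans (div_le_div_of_nonneg_left (by norm_num) hκ0 h1)
      have h5 := pow_le_pow_left₀ (norm_nonneg _) h4 2
      rw [add_zero]
      refine h5.trans (le_of_eq ?_)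
      rw [div_pow]
      norm_num
  refine (Finset.sum_le_sum hbound).trans ?_
  rw [Finset.sum_add_distrib, Finset.sum_const, card_range, nsmul_eq_mul, ← Finset.sum_filter,
    Finset.sum_const, nsmul_eq_mul]
  have hsub : (range (2 * x)).filter (fun l => l ∈ P) = P := by
    ext l
    simp only [mem_filter]
    exact ⟨fun h => h.2, fun h => ⟨(mem_filter.1 h).1, h⟩⟩
  rw [hsub]
  have hcard' : (#P : ℝ) ≤ 2 * x / H + 1 := by
    have h1 : ((#P : ℕ) : ℝ) ≤ ((2 * x / H + 1 : ℕ) : ℝ) := by exact_mod_cast hcard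
    refine h1.trans ?_
    push_cast
    have h2 : ((2 * x / H : ℕ) : ℝ) ≤ ((2 * x : ℕ) : ℝ) / (H : ℝ) := Nat.cast_div_le
    push_cast at h2
    linarith
  push_cast
  have t1 : 2 * (x : ℝ) * (4 / κ ^ 2) ≤ ε / 3 * x ^ 3 := by
    have h1 : 24 ≤ x * (κ ^ 2 * ε) := by
      rwa [div_le_iff₀ (by positivity)] at hxA
    have h2 : 4 / κ ^ 2 * 2 * 3 ≤ x * ε := by
      rw [show 4 / κ ^ 2 * 2 * 3 = 24 / κ ^ 2 by ring, div_le_iff₀ (by positivity)]
      linarith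
    have h3 : (x : ℝ) * ε ≤ x ^ 2 * ε := by
      have : (x : ℝ) ≤ x ^ 2 := by nlinarith
      exact mul_le_mul_of_nonneg_right this hε.le
    have h4 : (x : ℝ) * (4 / κ ^ 2 * 2 * 3) ≤ x * (x ^ 2 * ε) :=
      mul_le_mul_of_nonneg_left (h2.trans h3) (by positivity)
    nlinarith
  have t2 : 2 * (x : ℝ) / H * (4 * x ^ 2) ≤ ε / 3 * x ^ 3 := by
    have h1 : 24 / (H : ℝ) ≤ ε := by
      rw [div_lt_iff₀ hε] at hH
      rw [div_le_iff₀ hH0]
      linarith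
    have h2 : 2 * (x : ℝ) / H * (4 * x ^ 2) = (24 / H) * (x ^ 3 / 3) := by
      field_simp
      ring
    rw [h2]
    have h3 : (24 / (H : ℝ)) * ((x : ℝ) ^ 3 / 3) ≤ ε * (x ^ 3 / 3) :=
      mul_le_mul_of_nonneg_right h1 (by positivity)
    linarith
  have t3 : 4 * (x : ℝ) ^ 2 ≤ ε / 3 * x ^ 3 := by
    have h1 : 12 ≤ x * ε := by rwa [div_le_iff₀ hε] at hxB
    have h2 : (x : ℝ) ^ 2 * 12 ≤ x ^ 2 * (x * ε) :=
      mul_le_mul_of_nonneg_left h1 (by positivity)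
    nlinarith
  have t4 : (#P : ℝ) * (4 * x ^ 2) ≤ (2 * x / H + 1) * (4 * x ^ 2) :=
    mul_le_mul_of_nonneg_right hcard' (by positivity)
  nlinarith

/-- Lemma Q. -/
theorem lemmaQ (θ : Fr) (hθ : ∀ q : ℕ, 0 < q → q • θ ≠ 0) {K η : ℝ} (hK : 0 < K)
    (hη : 0 < η) : ∀ᶠ x : ℕ in atTop, ∀ S ⊆ range x, En S x ≤ K * x →
    ∀ φ φ' : ℕ → ℂ, (∀ n, ‖φ n‖ ≤ 1) → (∀ n, ‖φ' n‖ ≤ 1) →
    ‖∑ p ∈ S ×ˢ S, φ p.1 * φ' p.2 * ch (p.1 * p.2) θ‖ ≤ η * x := by
  have hε : 0 < η ^ 8 / (2 * K ^ 4) := by positivity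
  filter_upwards [count θ hθ hε] with x hx S hS hE φ φ' hφ hφ'
  set B : ℝ := ‖∑ p ∈ S ×ˢ S, φ p.1 * φ' p.2 * ch (p.1 * p.2) θ‖ with hB
  set X₁ : ℝ := ∑ p ∈ S ×ˢ S, ‖hat S ((p.1 + (x - p.2)) • θ - x • θ)‖ with hX1
  set Y₁ : ℝ := ∑ m ∈ range (2 * x), ‖hat S (m • θ - x • θ)‖ ^ 2 with hY1
  set X₂ : ℝ := ∑ p ∈ S ×ˢ S,
    ‖∑ m ∈ range (2 * x), ch m ((p.1 + (x - p.2)) • θ - x • θ)‖ with hX2
  set Y₂ : ℝ := ∑ l ∈ range (2 * x),
      ‖∑ m ∈ range (2 * x), ch m (l • θ - x • θ)‖ ^ 2 with hY2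
  have hB0 : 0 ≤ B := norm_nonneg _
  have hX10 : 0 ≤ X₁ := Finset.sum_nonneg fun _ _ => norm_nonneg _
  have hY10 : 0 ≤ Y₁ := Finset.sum_nonneg fun _ _ => sq_nonneg _
  have hX20 : 0 ≤ X₂ := Finset.sum_nonneg fun _ _ => norm_nonneg _
  have hY20 : 0 ≤ Y₂ := Finset.sum_nonneg fun _ _ => sq_nonneg _
  have hE0 : 0 ≤ En S x := Finset.sum_nonneg fun _ _ => sq_nonneg _
  have hx0 : (0 : ℝ) ≤ x := Nat.cast_nonneg _
  have h1 : B ^ 2 ≤ #S * X₁ := step1 S hS θ φ φ' hφ hφ'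
  have h2 : X₁ ^ 2 ≤ En S x * Y₁ :=
    sum_diff_le S hS (fun m => ‖hat S (m • θ - x • θ)‖)
  have h3 : Y₁ ≤ X₂ := step3 S hS θ
  have h4 : X₂ ^ 2 ≤ En S x * Y₂ :=
    sum_diff_le S hS (fun l => ‖∑ m ∈ range (2 * x), ch m (l • θ - x • θ)‖)
  have h5 : (#S : ℝ) ^ 2 ≤ √(2 * K) * x := card_sq_le' S hS hK hE
  have h5' : (#S : ℝ) ^ 4 ≤ 2 * K * x ^ 2 := by
    calc (#S : ℝ) ^ 4 = ((#S : ℝ) ^ 2) ^ 2 := by ring
      _ ≤ (√(2 * K) * x) ^ 2 := pow_le_pow_left₀ (by positivity) h5 2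
      _ = √(2 * K) ^ 2 * x ^ 2 := by ring
      _ = _ := by rw [Real.sq_sqrt (by positivity)]
  have h6 : B ^ 8 ≤ (η * x) ^ 8 := by
    have e1 : B ^ 4 ≤ (#S : ℝ) ^ 2 * X₁ ^ 2 := by
      calc B ^ 4 = (B ^ 2) ^ 2 := by ring
        _ ≤ (#S * X₁) ^ 2 := pow_le_pow_left₀ (by positivity) h1 2
        _ = _ := by ring
    have e2 : B ^ 4 ≤ (#S : ℝ) ^ 2 * (En S x * X₂) := by
      refine e1.trans (mul_le_mul_of_nonneg_left ?_ (by positivity))
      exact h2.trans (mul_le_mul_of_nonneg_left h3 hE0)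
    calc B ^ 8 = (B ^ 4) ^ 2 := by ring
      _ ≤ ((#S : ℝ) ^ 2 * (En S x * X₂)) ^ 2 := pow_le_pow_left₀ (by positivity) e2 2
      _ = (#S : ℝ) ^ 4 * (En S x ^ 2 * X₂ ^ 2) := by ring
      _ ≤ (2 * K * x ^ 2) * ((K * x) ^ 2 * ((K * x) * (η ^ 8 / (2 * K ^ 4) * x ^ 3))) := by
          refine mul_le_mul h5' ?_ (by positivity) (by positivity)
          refine mul_le_mul (pow_le_pow_left₀ hE0 hE 2) ?_ (by positivity) (by positivity)
          exact h4.trans (mul_le_mul hE hx hY20 (by positivity))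
      _ = (η * x) ^ 8 := by
          field_simp
  exact le_of_pow_le_pow_left₀ (by norm_num : (8 : ℕ) ≠ 0) (by positivity) h6

end Pool.Agent.Helper37.PC
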