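import Pool.Agent.Helper37.PC.Qlem

/-! Quadratic phases: mean values, trigonometric polynomials, products. -/

namespace Pool.Agent.Helper37.PC

open Finset Filter Topology
open Pool.Agent.Helper57.PC

/-- quadratic characters -/
noncomputable def qc (n : ℕ) (j : Fr × Fr) : ℂ := ch (n * n) j.1 * ch n j.2

lemma norm_qc (n : ℕ) (j : Fr × Fr) : ‖qc n j‖ = 1 := by
  unfold qc
  rw [norm_mul, norm_ch, norm_ch, one_mul]

lemma qc_sub (n : ℕ) (i j : Fr × Fr) : qc n (i - j) = (starRingEnd ℂ) (qc n j) * qc n i := by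
  unfold qc
  rw [Prod.fst_sub, Prod.snd_sub, ch_sub, ch_sub, map_mul]
  ring

/-- quadratic trigonometric polynomials -/
noncomputable def qt (J : Finset (Fr × Fr)) (d : Fr × Fr → ℂ) (n : ℕ) : ℂ :=
  ∑ j ∈ J, d j * qc n j

/-- the shifts of a quadratic character -/
lemma qc_shift (h h' : ℕ) (hh : h' ≤ h) (j : Fr × Fr) :
    ∃ w : ℂ, ‖w‖ = 1 ∧ ∀ n, qc (n + h) j * (starRingEnd ℂ) (qc (n + h') j) =
      w * ch n ((2 * (h - h')) • j.1) := by
  refine ⟨ch (h * h) j.1 * (starRingEnd ℂ) (ch (h' * h') j.1) * ch h j.2 *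
    (starRingEnd ℂ) (ch h' j.2), ?_, fun n => ?_⟩
  · simp only [norm_mul, RCLike.norm_conj, norm_ch, mul_one]
  · unfold qc
    have e1 : ch ((n + h) * (n + h)) j.1 =
        ch (n * n) j.1 * ch (n * (2 * (h - h'))) j.1 * ch (n * (2 * h')) j.1 *
          ch (h * h) j.1 := by
      rw [← ch_nat_add, ← ch_nat_add, ← ch_nat_add]
      congr 1
      have : h = (h - h') + h' := by omega
      generalize h - h' = k at this
      subst this
      ring
    have e2 : ch ((n + h') * (n + h')) j.1 =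
        ch (n * n) j.1 * ch (n * (2 * h')) j.1 * ch (h' * h') j.1 := by
      rw [← ch_nat_add, ← ch_nat_add]
      congr 1
      ring
    rw [e1, e2, ch_nat_add n h, ch_nat_add n h', ← ch_mul_comm]
    simp only [map_mul]
    have a1 := ch_conj_mul (n * n) j.1
    have a2 := ch_conj_mul (n * (2 * h')) j.1
    have a3 := ch_conj_mul n j.2
    linear_combination (ch (n * (2 * (h - h'))) j.1 * ch (h * h) j.1 *
      (starRingEnd ℂ) (ch (h' * h') j.1) * ch h j.2 * (starRingEnd ℂ) (ch h' j.2)) *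
      (a1 * ((starRingEnd ℂ) (ch (n * (2 * h')) j.1) * ch (n * (2 * h')) j.1 *
        ((starRingEnd ℂ) (ch n j.2) * ch n j.2)) + a2 * ((starRingEnd ℂ) (ch n j.2) * ch n j.2)
        + a3)

/-- correlations of two shifts -/
lemma sum_shift_le {j : Fr × Fr} (hj : ∀ q : ℕ, 0 < q → q • j.1 ≠ 0) (h h' : ℕ) :
    ∃ C : ℝ, 0 ≤ C ∧ ∀ x : ℕ,
      ‖∑ n ∈ range x, qc (n + h) j * (starRingEnd ℂ) (qc (n + h') j)‖ ≤
        C + if h = h' then (x : ℝ) else 0 := by
  rcases lt_trichotomy h h' with hlt | rfl | hlt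
  · obtain ⟨w, hw, he⟩ := qc_shift h' h hlt.le j
    have h0 : (2 * (h' - h)) • j.1 ≠ 0 := hj _ (by omega)
    refine ⟨2 / ‖ch 1 ((2 * (h' - h)) • j.1) - 1‖, by positivity, fun x => ?_⟩
    rw [if_neg hlt.ne, add_zero]
    have e : ∑ n ∈ range x, qc (n + h) j * (starRingEnd ℂ) (qc (n + h') j) =
        (starRingEnd ℂ) (w * ∑ n ∈ range x, ch n ((2 * (h' - h)) • j.1)) := by
      rw [Finset.mul_sum, map_sum]
      refine Finset.sum_congr rfl fun n _ => ?_
      rw [← he n, map_mul, Complex.conj_conj, mul_comm]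
    rw [e, RCLike.norm_conj, norm_mul, hw, one_mul]
    exact sum_ch_le h0 x
  · refine ⟨0, le_rfl, fun x => ?_⟩
    rw [if_pos rfl, zero_add]
    refine (norm_sum_le _ _).trans ?_
    simp only [norm_mul, RCLike.norm_conj, norm_qc, mul_one, Finset.sum_const, card_range,
      nsmul_eq_mul, le_refl]
  · obtain ⟨w, hw, he⟩ := qc_shift h h' hlt.le j
    have h0 : (2 * (h - h')) • j.1 ≠ 0 := hj _ (by omega)
    refine ⟨2 / ‖ch 1 ((2 * (h - h')) • j.1) - 1‖, by positivity, fun x => ?_⟩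
    rw [if_neg hlt.ne', add_zero]
    have e : ∑ n ∈ range x, qc (n + h) j * (starRingEnd ℂ) (qc (n + h') j) =
        w * ∑ n ∈ range x, ch n ((2 * (h - h')) • j.1) := by
      rw [Finset.mul_sum]
      exact Finset.sum_congr rfl fun n _ => he n
    rw [e, norm_mul, hw, one_mul]
    exact sum_ch_le h0 x

/-- shifting a sum of unimodular terms -/
lemma sum_shift_sub_le (u : ℕ → ℂ) (hu : ∀ n, ‖u n‖ ≤ 1) (h x : ℕ) :
    ‖∑ n ∈ range x, u (n + h) - ∑ n ∈ range x, u n‖ ≤ 2 * h := by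
  induction h with
  | zero => simp
  | succ h ih =>
    have e : ∑ n ∈ range x, u (n + (h + 1)) =
        ∑ n ∈ range x, u (n + h) + (u (x + h) - u (0 + h)) := by
      have h1 := Finset.sum_range_succ (fun n => u (n + h)) x
      have h2 := Finset.sum_range_succ' (fun n => u (n + h)) x
      rw [h1] at h2
      have h3 : ∑ n ∈ range x, u (n + 1 + h) = ∑ n ∈ range x, u (n + (h + 1)) :=
        Finset.sum_congr rfl fun n _ => by rw [add_assoc, add_comm 1 h]
      rw [h3] at h2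
      linear_combination -h2
    rw [e, add_sub_right_comm]
    refine (norm_add_le _ _).trans ?_
    have h4 : ‖u (x + h) - u (0 + h)‖ ≤ 2 := by
      refine (norm_sub_le _ _).trans ?_
      linarith [hu (x + h), hu (0 + h)]
    push_cast
    linarith

/-- Weyl: mean values of quadratic characters -/
lemma weyl {j : Fr × Fr} (hj : ∀ q : ℕ, 0 < q → q • j.1 ≠ 0) :
    Tendsto (fun x : ℕ => (∑ n ∈ range x, qc n j) / x) atTop (𝓝 0) := by
  rw [tendsto_zero_iff_norm_tendsto_zero, Metric.tendsto_atTop]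
  intro ε hε
  choose C hC0 hC using fun h h' => sum_shift_le hj h h'
  obtain ⟨H, hH⟩ := exists_nat_gt (16 / ε ^ 2)
  have hH0 : (0 : ℝ) < H := lt_trans (by positivity) hH
  set CC : ℝ := ∑ h ∈ range H, ∑ h' ∈ range H, C h h' with hCC
  have hCC0 : 0 ≤ CC := Finset.sum_nonneg fun _ _ => Finset.sum_nonneg fun _ _ => hC0 _ _
  obtain ⟨x₀, hx₀⟩ := exists_nat_gt (16 * CC / (ε ^ 2 * H ^ 2) + 8 * H / ε)
  refine ⟨x₀, fun x hx => ?_⟩
  have hx1 : 16 * CC / (ε ^ 2 * H ^ 2) + 8 * H / ε < (x : ℝ) :=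
    hx₀.trans_le (by exact_mod_cast hx)
  have hA : 0 ≤ 16 * CC / (ε ^ 2 * H ^ 2) := by positivity
  have hB : 0 < 8 * (H : ℝ) / ε := by positivity
  have hx0 : (0 : ℝ) < x := by linarith
  have hxA : 16 * CC / (ε ^ 2 * H ^ 2) < (x : ℝ) := by linarith
  have hxB : 8 * (H : ℝ) / ε < x := by linarith
  set T : ℂ := ∑ n ∈ range x, qc n j with hT
  -- van der Corput
  have h1 : ‖∑ n ∈ range x, ∑ h ∈ range H, qc (n + h) j - H * T‖ ≤ 2 * H ^ 2 := by
    have e : ∑ n ∈ range x, ∑ h ∈ range H, qc (n + h) j - H * T =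
        ∑ h ∈ range H, (∑ n ∈ range x, qc (n + h) j - T) := by
      rw [Finset.sum_comm, Finset.sum_sub_distrib, Finset.sum_const, card_range, nsmul_eq_mul]
    rw [e]
    refine (norm_sum_le _ _).trans ?_
    have h2 : ∀ h ∈ range H, ‖∑ n ∈ range x, qc (n + h) j - T‖ ≤ 2 * H := by
      intro h hh
      refine (sum_shift_sub_le (fun n => qc n j) (fun n => (norm_qc n j).le) h x).trans ?_
      have : (h : ℝ) ≤ H := by exact_mod_cast (mem_range.1 hh).le
      linarith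
    refine (Finset.sum_le_sum h2).trans (le_of_eq ?_)
    rw [Finset.sum_const, card_range, nsmul_eq_mul]
    ring
  have h2 : ‖∑ n ∈ range x, ∑ h ∈ range H, qc (n + h) j‖ ^ 2 ≤ x * (H * x + CC) := by
    have h3 : ‖∑ n ∈ range x, ∑ h ∈ range H, qc (n + h) j‖ ≤
        ∑ n ∈ range x, 1 * ‖∑ h ∈ range H, qc (n + h) j‖ := by
      simp_rw [one_mul]
      exact norm_sum_le _ _
    refine (pow_le_pow_left₀ (norm_nonneg _) h3 2).trans ?_
    refine (Finset.sum_mul_sq_le_sq_mul_sq _ _ _).trans ?_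
    rw [Finset.sum_const, one_pow, nsmul_eq_mul, mul_one, card_range]
    refine mul_le_mul_of_nonneg_left ?_ hx0.le
    have e2 : ((∑ n ∈ range x, ‖∑ h ∈ range H, qc (n + h) j‖ ^ 2 : ℝ) : ℂ) =
        ∑ p ∈ range H ×ˢ range H,
          ∑ n ∈ range x, qc (n + p.1) j * (starRingEnd ℂ) (qc (n + p.2) j) := by
      rw [Complex.ofReal_sum, Finset.sum_congr rfl fun n _ =>
        sq_norm_sum (range H) (fun h => qc (n + h) j), Finset.sum_comm]
    have h6 : ∑ n ∈ range x, ‖∑ h ∈ range H, qc (n + h) j‖ ^ 2 ≤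
        ‖((∑ n ∈ range x, ‖∑ h ∈ range H, qc (n + h) j‖ ^ 2 : ℝ) : ℂ)‖ := by
      rw [Complex.norm_real]
      exact le_abs_self _
    rw [e2] at h6
    refine h6.trans ((norm_sum_le _ _).trans
      ((Finset.sum_le_sum fun p _ => hC p.1 p.2 x).trans (le_of_eq ?_)))
    rw [Finset.sum_add_distrib, Finset.sum_product, Finset.sum_product, ← hCC, add_comm]
    congr 1
    rw [Finset.sum_congr rfl (g := fun _ => (x : ℝ))]
    · rw [Finset.sum_const, card_range, nsmul_eq_mul]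
    · intro h hh
      rw [Finset.sum_ite_eq, if_pos hh]
  have h3 : H * ‖T‖ ≤ √(x * (H * x + CC)) + 2 * H ^ 2 := by
    have h4 : ‖(H : ℂ) * T‖ = H * ‖T‖ := by rw [norm_mul, Complex.norm_natCast]
    rw [← h4]
    have e : (H : ℂ) * T = ∑ n ∈ range x, ∑ h ∈ range H, qc (n + h) j -
        (∑ n ∈ range x, ∑ h ∈ range H, qc (n + h) j - H * T) := by ring
    rw [e]
    refine (norm_sub_le _ _).trans (add_le_add ?_ h1)
    exact Real.le_sqrt_of_sq_le h2
  have h4 : √(x * (H * x + CC)) ≤ ε / 2 * (H * x) := by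
    refine Real.sqrt_le_iff.2 ⟨by positivity, ?_⟩
    have a1 : (H : ℝ) * x * x ≤ ε ^ 2 / 16 * (H ^ 2 * x ^ 2) := by
      have b1 : 16 ≤ H * ε ^ 2 := by
        rw [div_lt_iff₀ (by positivity)] at hH
        exact hH.le
      have b2 : 16 * ((H : ℝ) * x * x / 16) ≤ (H * ε ^ 2) * ((H : ℝ) * x * x / 16) :=
        mul_le_mul_of_nonneg_right b1 (by positivity)
      nlinarith
    have a2 : CC * x ≤ ε ^ 2 / 16 * (H ^ 2 * x ^ 2) := by
      have b1 : 16 * CC ≤ x * (ε ^ 2 * H ^ 2) := by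
        rw [div_lt_iff₀ (by positivity)] at hxA
        exact hxA.le
      have b2 : 16 * CC * (x / 16) ≤ (x * (ε ^ 2 * H ^ 2)) * (x / 16) :=
        mul_le_mul_of_nonneg_right b1 (by positivity)
      nlinarith
    nlinarith
  have h5 : 2 * (H : ℝ) ^ 2 ≤ ε / 4 * (H * x) := by
    have b1 : 8 * H ≤ x * ε := by
      rw [div_lt_iff₀ hε] at hxB
      exact hxB.le
    have b2 : (8 * (H : ℝ)) * (H / 4) ≤ (x * ε) * (H / 4) :=
      mul_le_mul_of_nonneg_right b1 (by positivity)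
    nlinarith
  have h6 : ‖T‖ ≤ 3 / 4 * ε * x := by
    have h7 : H * ‖T‖ ≤ H * (3 / 4 * ε * x) := by nlinarith
    exact le_of_mul_le_mul_left h7 hH0
  rw [dist_zero_right, norm_norm, norm_div, Complex.norm_natCast, div_lt_iff₀ hx0]
  nlinarith

end Pool.Agent.Helper37.PC
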