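import Pool.Agent.Helper37.PC.Final

/-! The correlated characters of a choice function form a finite set, along any set of scales with
bounded mean square. -/

namespace Pool.Agent.Helper37.PC

open Finset Filter Topology
open Pool.Agent.Helper25.RC (repF rep below mem_below below_subset_range repF_below_le)
open Pool.Agent.Helper57.PC

open Classical in
/-- Along a set `X` of scales with few representations on average, only finitely many characters of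
a choice function are correlated with quadratic almost periodic sequences. -/
theorem finite_quadratic_correlated (A D : Set ℕ) (f : ℕ → ℕ)
    (hf : ∀ n ∈ D, f n ≤ n ∧ f n ∈ A ∧ n - f n ∈ A) (X : Set ℕ) (hX : X.Infinite) {K δ : ℝ}
    (hδ : 0 < δ) (hr : ∀ x ∈ X, ∑ n ∈ range (2 * x), (rep A n : ℝ) ^ 2 ≤ K * x) :
    {ψ : ℝ | 0 ≤ ψ ∧ ψ < 1 ∧ ∃ h : ℕ → ℂ, (∀ n, ‖h n‖ ≤ 1) ∧ QuadraticAlmostPeriodic h ∧
      ∀ᶠ x : ℕ in atTop, x ∈ X → δ * x ≤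
        ‖∑ n ∈ range x with n ∈ D, e (ψ * f n) * (starRingEnd ℂ) (h n)‖}.Finite := by
  set Ψ := {ψ : ℝ | 0 ≤ ψ ∧ ψ < 1 ∧ ∃ h : ℕ → ℂ, (∀ n, ‖h n‖ ≤ 1) ∧ QuadraticAlmostPeriodic h ∧
      ∀ᶠ x : ℕ in atTop, x ∈ X → δ * x ≤
        ‖∑ n ∈ range x with n ∈ D, e (ψ * f n) * (starRingEnd ℂ) (h n)‖} with hΨ
  by_contra hinf
  have hcor : Ψ.Infinite := hinf
  have hch : ∀ ψ : ℝ, ∃ h : ℕ → ℂ, ψ ∈ Ψ → (∀ n, ‖h n‖ ≤ 1) ∧ QuadraticAlmostPeriodic h ∧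
      ∀ᶠ x : ℕ in atTop, x ∈ X → δ * x ≤
        ‖∑ n ∈ range x with n ∈ D, e (ψ * f n) * (starRingEnd ℂ) (h n)‖ := by
    intro ψ
    by_cases h : ψ ∈ Ψ
    · obtain ⟨g, hg⟩ := h.2.2
      exact ⟨g, fun _ => hg⟩
    · exact ⟨0, fun h' => absurd h' h⟩
  choose g hg using hch
  have hlift : ∀ ψ ∈ Ψ, lift (ψ : Fr) = ψ := fun ψ hψ => lift_coe ⟨hψ.1, hψ.2.1⟩
  have hfr : ∃ᶠ x : ℕ in atTop, x ∈ X := Nat.frequently_atTop_iff_infinite.2 hX
  have hne : NeBot (atTop ⊓ 𝓟 X : Filter ℕ) := frequently_mem_iff_neBot.1 hfr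
  have hX' : ∀ᶠ x : ℕ in (atTop ⊓ 𝓟 X : Filter ℕ), x ∈ X := mem_inf_of_right (mem_principal_self _)
  refine core' A (atTop ⊓ 𝓟 X) inf_le_left (K := |K| + 1) (by positivity) hδ ?_
    ((fun ψ : ℝ => (ψ : Fr)) '' Ψ) ?_ (fun φ => g (lift φ)) ?_ ?_
    (fun x a b => if a + b < x ∧ a + b ∈ D ∧ a = f (a + b) then (1 : ℂ) else 0) (fun x a b => ?_) ?_
  · filter_upwards [hX'] with x hx
    have h1 : En (below A x) x ≤ ∑ n ∈ range (2 * x), (rep A n : ℝ) ^ 2 := by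
      unfold En
      refine Finset.sum_le_sum fun n _ => ?_
      have : (repF (below A x) n : ℝ) ≤ rep A n := by exact_mod_cast repF_below_le A x n
      exact pow_le_pow_left₀ (Nat.cast_nonneg _) this 2
    refine h1.trans ((hr x hx).trans ?_)
    have hx0 : (0 : ℝ) ≤ x := Nat.cast_nonneg _
    nlinarith [le_abs_self K]
  · refine hcor.image fun ψ hψ ψ' hψ' he => ?_
    have := congrArg lift he
    rwa [hlift ψ hψ, hlift ψ' hψ'] at this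
  · rintro _ ⟨ψ, hψ, rfl⟩ _ ⟨ψ', hψ', rfl⟩
    rw [hlift ψ hψ, hlift ψ' hψ']
    exact BQ.conj_mul (hg ψ hψ).1 (hg ψ hψ).2.1.bq (hg ψ' hψ').2.1.bq
  · rintro _ ⟨ψ, hψ, rfl⟩ n
    rw [hlift ψ hψ]
    exact (hg ψ hψ).1 n
  · split_ifs
    · rw [norm_one]
    · rw [norm_zero]
      exact zero_le_one
  · rintro _ ⟨ψ, hψ, rfl⟩
    rw [hlift ψ hψ]
    have h2 : ∀ᶠ x : ℕ in (atTop ⊓ 𝓟 X : Filter ℕ), x ∈ X → δ * x ≤
        ‖∑ n ∈ range x with n ∈ D, e (ψ * f n) * (starRingEnd ℂ) (g ψ n)‖ :=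
      inf_le_left (a := atTop) (b := 𝓟 X) (hg ψ hψ).2.2
    filter_upwards [h2, hX'] with x hx hxX
    rw [choice_sum A D f hf x (fun a n => ch a (ψ : Fr) * (starRingEnd ℂ) (g ψ n))]
    simp_rw [ch_eq_e]
    exact hx hxX

end Pool.Agent.Helper37.PC
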